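import Pool.Agent.H46.LT.Gap3

/-!
# Clusters of primes with given Frobenius traces: independent trials
-/

set_option autoImplicit false

namespace Pool.Agent.H46.LT

open Finset Pool.Agent.K4H16.CG

/-- the probability of exactly `m` hits in `s` -/
noncomputable def pr {ι : Type*} [DecidableEq ι] (q : ι → ℝ) (s : Finset ι) (m : ℕ) : ℝ :=
  ∑ A ∈ powersetCard m s, ∏ i ∈ s, if i ∈ A then q i else 1 - q i

lemma ind_card {ι : Type*} [DecidableEq ι] (s F : Finset ι) (hF : F ⊆ s) (m : ℕ) :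
    (if F.card = m then (1 : ℝ) else 0) = ∑ A ∈ powersetCard m s, if F = A then (1 : ℝ) else 0 := by
  rw [sum_ite_eq]
  by_cases h : F.card = m
  · rw [if_pos h, if_pos (mem_powersetCard.2 ⟨hF, h⟩)]
  · rw [if_neg h, if_neg fun h2 => h (mem_powersetCard.1 h2).2]

lemma ind_prod {ι : Type*} [Fintype ι] [DecidableEq ι] (s A : Finset ι) (hA : A ⊆ s) (f : ι → Fin 2) :
    (if s.filter (fun i => f i ≠ 0) = A then (1 : ℝ) else 0) = ∏ i, if i ∈ s then (if (f i ≠ 0 ↔ i ∈ A) then (1 : ℝ) else 0) else 1 := by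
  rw [prod_ite_mem, univ_inter, prod_ite_zero, prod_const_one]
  by_cases h : s.filter (fun i => f i ≠ 0) = A
  · rw [if_pos h, if_pos]
    intro i hi
    rw [← h, mem_filter]
    exact ⟨fun h2 => ⟨hi, h2⟩, fun h2 => h2.2⟩
  · rw [if_neg h, if_neg]
    intro h2
    apply h
    ext i
    rw [mem_filter]
    constructor
    · intro h3
      exact (h2 i h3.1).1 h3.2
    · intro h3
      exact ⟨hA h3, (h2 i (hA h3)).2 h3⟩

lemma pair_law {ι : Type*} [Fintype ι] [DecidableEq ι] (law : ι → Fin 2 → ℝ) (q : ι → ℝ) (h1 : ∀ i, law i 0 + law i 1 = 1)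
    (s t : Finset ι) (hst : Disjoint s t) (hq : ∀ i, i ∈ s ∨ i ∈ t → law i 1 = q i) (m m' : ℕ) :
    ∑ f : ι → Fin 2, ((if (s.filter (fun i => f i ≠ 0)).card = m then (1 : ℝ) else 0) *
      (if (t.filter (fun i => f i ≠ 0)).card = m' then (1 : ℝ) else 0)) * ∏ i, law i (f i) = pr q s m * pr q t m' := by
  have e1 : ∀ f : ι → Fin 2, ((if (s.filter (fun i => f i ≠ 0)).card = m then (1 : ℝ) else 0) *
      (if (t.filter (fun i => f i ≠ 0)).card = m' then (1 : ℝ) else 0)) * ∏ i, law i (f i) =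
      ∑ A ∈ powersetCard m s, ∑ B ∈ powersetCard m' t, ∏ i, ((if i ∈ s then (if (f i ≠ 0 ↔ i ∈ A) then (1 : ℝ) else 0) else 1) *
        (if i ∈ t then (if (f i ≠ 0 ↔ i ∈ B) then (1 : ℝ) else 0) else 1) * law i (f i)) := by
    intro f
    rw [ind_card s _ (filter_subset _ _) m, ind_card t _ (filter_subset _ _) m', sum_mul_sum, sum_mul]
    apply sum_congr rfl
    intro A hA
    rw [sum_mul]
    apply sum_congr rfl
    intro B hB
    rw [ind_prod s A (mem_powersetCard.1 hA).1 f, ind_prod t B (mem_powersetCard.1 hB).1 f, ← prod_mul_distrib, ← prod_mul_distrib]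
  rw [sum_congr rfl fun f _ => e1 f, sum_comm]
  unfold pr
  rw [sum_mul_sum]
  apply sum_congr rfl
  intro A hA
  rw [sum_comm]
  apply sum_congr rfl
  intro B hB
  have e2 := prod_univ_sum (fun _ : ι => (univ : Finset (Fin 2))) (fun (i : ι) (j : Fin 2) =>
    (if i ∈ s then (if (j ≠ 0 ↔ i ∈ A) then (1 : ℝ) else 0) else 1) *
        (if i ∈ t then (if (j ≠ 0 ↔ i ∈ B) then (1 : ℝ) else 0) else 1) * law i j)
  rw [Fintype.piFinset_univ] at e2
  rw [← e2]
  have e3 : ∀ i : ι, ∑ j : Fin 2, (if i ∈ s then (if (j ≠ 0 ↔ i ∈ A) then (1 : ℝ) else 0) else 1) *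
        (if i ∈ t then (if (j ≠ 0 ↔ i ∈ B) then (1 : ℝ) else 0) else 1) * law i j =
      (if i ∈ s then (if i ∈ A then q i else 1 - q i) else 1) * (if i ∈ t then (if i ∈ B then q i else 1 - q i) else 1) := by
    intro i
    rw [Fin.sum_univ_two]
    have h10 := h1 i
    by_cases his : i ∈ s
    · have hit : i ∉ t := fun h => disjoint_left.1 hst his h
      have hqi := hq i (Or.inl his)
      have h0 : law i 0 = 1 - q i := by linarith
      by_cases hiA : i ∈ A
      · simp [his, hit, hiA, hqi]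
      · simp [his, hit, hiA, h0]
    · by_cases hit : i ∈ t
      · have hqi := hq i (Or.inr hit)
        have h0 : law i 0 = 1 - q i := by linarith
        by_cases hiB : i ∈ B
        · simp [his, hit, hiB, hqi]
        · simp [his, hit, hiB, h0]
      · simp [his, hit, h10]
  rw [prod_congr rfl fun i _ => e3 i, prod_mul_distrib, prod_ite_mem, prod_ite_mem, univ_inter, univ_inter]

lemma chern {ι : Type*} [Fintype ι] [DecidableEq ι] (law : ι → Fin 2 → ℝ) (q : ι → ℝ) (h0 : ∀ i j, 0 ≤ law i j)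
    (h1 : ∀ i, law i 0 + law i 1 = 1) (s : Finset ι) (hq : ∀ i ∈ s, law i 1 = q i) (G : (ι → Fin 2) → ℝ) (t c : ℝ)
    (hG : ∀ f, G f ≤ Real.exp (t * ((s.filter (fun i => f i ≠ 0)).card : ℝ) - c)) :
    ∑ f : ι → Fin 2, G f * ∏ i, law i (f i) ≤ Real.exp ((Real.exp t - 1) * (∑ i ∈ s, q i) - c) := by
  have e1 : ∀ f : ι → Fin 2, G f * ∏ i, law i (f i) ≤
      Real.exp (-c) * ∏ i, ((if i ∈ s then (if f i ≠ 0 then Real.exp t else 1) else 1) * law i (f i)) := by
    intro f
    have h2 : Real.exp (t * ((s.filter (fun i => f i ≠ 0)).card : ℝ) - c) =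
        Real.exp (-c) * ∏ i, (if i ∈ s then (if f i ≠ 0 then Real.exp t else 1) else 1) := by
      rw [prod_ite_mem, univ_inter, ← prod_filter, prod_const, ← Real.exp_nat_mul, ← Real.exp_add]
      congr 1
      ring
    rw [prod_mul_distrib, ← mul_assoc, ← h2]
    exact mul_le_mul_of_nonneg_right (hG f) (prod_nonneg fun i _ => h0 i _)
  refine (sum_le_sum fun f _ => e1 f).trans ?_
  rw [← mul_sum]
  have e2 := prod_univ_sum (fun _ : ι => (univ : Finset (Fin 2))) (fun (i : ι) (j : Fin 2) =>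
    (if i ∈ s then (if j ≠ 0 then Real.exp t else 1) else 1) * law i j)
  rw [Fintype.piFinset_univ] at e2
  rw [← e2]
  have e3 : ∀ i : ι, ∑ j : Fin 2, (if i ∈ s then (if j ≠ 0 then Real.exp t else 1) else 1) * law i j ≤
      if i ∈ s then Real.exp ((Real.exp t - 1) * q i) else 1 := by
    intro i
    rw [Fin.sum_univ_two]
    have h10 := h1 i
    by_cases his : i ∈ s
    · have hqi := hq i his
      have h3 := Real.add_one_le_exp ((Real.exp t - 1) * q i)
      have h4 : law i 0 = 1 - q i := by linarith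
      simp only [his, if_true, ne_eq, not_true_eq_false, if_false, one_mul, h4, hqi, one_ne_zero, not_false_eq_true]
      nlinarith
    · simp only [his, if_false, one_mul]
      linarith
  have e4 : ∏ i, ∑ j : Fin 2, (if i ∈ s then (if j ≠ 0 then Real.exp t else 1) else 1) * law i j ≤
      ∏ i, if i ∈ s then Real.exp ((Real.exp t - 1) * q i) else 1 := by
    apply prod_le_prod
    · intro i _
      apply sum_nonneg
      intro j _
      apply mul_nonneg _ (h0 i j)
      split_ifs <;> positivity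
    · intro i _
      exact e3 i
  have e5 : ∏ i, (if i ∈ s then Real.exp ((Real.exp t - 1) * q i) else 1) = Real.exp ((Real.exp t - 1) * ∑ i ∈ s, q i) := by
    rw [prod_ite_mem, univ_inter, ← Real.exp_sum, mul_sum]
  rw [e5] at e4
  calc Real.exp (-c) * ∏ i, ∑ j : Fin 2, (if i ∈ s then (if j ≠ 0 then Real.exp t else 1) else 1) * law i j
      ≤ Real.exp (-c) * Real.exp ((Real.exp t - 1) * ∑ i ∈ s, q i) := mul_le_mul_of_nonneg_left e4 (Real.exp_pos _).le
    _ = _ := by
        rw [← Real.exp_add]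
        congr 1
        ring

lemma es_rec (S : Multiset ℝ) : (∀ x ∈ S, 0 ≤ x) → (∀ k, S.sum * S.esymm (k + 1) ≤ (k + 2) * S.esymm (k + 2) +
    (S.map (fun x => x ^ 2)).sum * S.esymm k) ∧ S.esymm 1 = S.sum ∧ S.esymm 0 = 1 ∧ ∀ k, 0 ≤ S.esymm k := by
  induction S using Multiset.induction_on with
  | empty =>
    intro _
    refine ⟨fun k => ?_, ?_, ?_, fun k => ?_⟩
    · simp [Multiset.esymm]
    · simp [Multiset.esymm]
    · simp [Multiset.esymm]
    · cases k <;> simp [Multiset.esymm]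
  | cons a S ih =>
    intro h
    have ha : 0 ≤ a := h a (Multiset.mem_cons_self a S)
    obtain ⟨i1, i2, i3, i4⟩ := ih fun x hx => h x (Multiset.mem_cons_of_mem hx)
    have hs : ∀ k, (a ::ₘ S).esymm (k + 1) = S.esymm (k + 1) + a * S.esymm k := by
      intro k
      unfold Multiset.esymm
      rw [Multiset.powersetCard_cons, Multiset.map_add, Multiset.sum_add, Multiset.map_map]
      congr 1
      rw [← Multiset.sum_map_mul_left]
      congr 1
      apply Multiset.map_congr rfl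
      intro x _
      simp
    have hs0 : (a ::ₘ S).esymm 0 = 1 := by simp [Multiset.esymm]
    have hsum : (a ::ₘ S).sum = a + S.sum := Multiset.sum_cons a S
    have hsq : ((a ::ₘ S).map (fun x => x ^ 2)).sum = a ^ 2 + (S.map (fun x => x ^ 2)).sum := by
      rw [Multiset.map_cons, Multiset.sum_cons]
    refine ⟨fun k => ?_, ?_, hs0, fun k => ?_⟩
    · rw [hsum, hsq]
      cases k with
      | zero =>
        have j1 := i1 0
        rw [show 0 + 1 = 1 from rfl, show 0 + 2 = 2 from rfl] at j1 ⊢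
        have t1 := hs 0
        have t2 := hs 1
        rw [show 0 + 1 = 1 from rfl] at t1
        rw [show 1 + 1 = 2 from rfl] at t2
        rw [t1, t2, hs0, i2, i3]
        rw [i2, i3] at j1
        push_cast at j1 ⊢
        nlinarith
      | succ k =>
        have j1 := i1 (k + 1)
        have j2 := i1 k
        have t1 := hs (k + 1)
        have t2 := hs (k + 1 + 1)
        have t3 := hs k
        rw [show k + 1 + 2 = k + 1 + 1 + 1 from rfl] at j1 ⊢
        rw [show k + 2 = k + 1 + 1 from rfl] at j2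
        rw [t1, t2, t3]
        obtain ⟨e0, he0⟩ : ∃ e : ℝ, e = S.esymm k := ⟨_, rfl⟩
        obtain ⟨e1, he1⟩ : ∃ e : ℝ, e = S.esymm (k + 1) := ⟨_, rfl⟩
        obtain ⟨e2, he2⟩ : ∃ e : ℝ, e = S.esymm (k + 1 + 1) := ⟨_, rfl⟩
        obtain ⟨e3, he3⟩ : ∃ e : ℝ, e = S.esymm (k + 1 + 1 + 1) := ⟨_, rfl⟩
        obtain ⟨E, hE⟩ : ∃ e : ℝ, e = S.sum := ⟨_, rfl⟩
        obtain ⟨σ, hσ⟩ : ∃ e : ℝ, e = (S.map (fun x => x ^ 2)).sum := ⟨_, rfl⟩
        have e0n : 0 ≤ e0 := by rw [he0]; exact i4 k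
        rw [← he1, ← he2, ← he3, ← hE, ← hσ] at j1
        rw [← he0, ← he1, ← he2, ← hE, ← hσ] at j2
        rw [← he0, ← he1, ← he2, ← he3, ← hE, ← hσ]
        push_cast at j1 j2 ⊢
        have j3 := mul_le_mul_of_nonneg_left j2 ha
        have j4 : 0 ≤ a ^ 3 * e0 := by positivity
        nlinarith
    · have := hs 0
      rw [show 0 + 1 = 1 from rfl] at this
      rw [this, i2, i3, hsum]
      ring
    · cases k with
      | zero => rw [hs0]; norm_num
      | succ k =>
        rw [hs]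
        exact add_nonneg (i4 _) (mul_nonneg ha (i4 _))

lemma es_low (S : Multiset ℝ) (hS : ∀ x ∈ S, 0 ≤ x) (m : ℕ) (ε : ℝ) (hε : 0 < ε) (hε1 : ε ≤ 1 / 2) (hE : 0 < S.sum)
    (hσ : (S.map (fun x => x ^ 2)).sum * m ≤ ε * S.sum ^ 2 / 2) : ((1 - ε) * S.sum) ^ m / (m.factorial : ℝ) ≤ S.esymm m := by
  obtain ⟨i1, i2, i3, i4⟩ := es_rec S hS
  obtain ⟨E, hEd⟩ : ∃ e : ℝ, e = S.sum := ⟨_, rfl⟩
  obtain ⟨σ, hσd⟩ : ∃ e : ℝ, e = (S.map (fun x => x ^ 2)).sum := ⟨_, rfl⟩
  rw [← hEd, ← hσd] at i1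
  rw [← hEd] at i2
  rw [← hEd, ← hσd] at hσ
  rw [← hEd] at hE ⊢
  have hσ0 : 0 ≤ σ := by
    rw [hσd]
    apply Multiset.sum_nonneg
    intro x hx
    rw [Multiset.mem_map] at hx
    obtain ⟨y, _, rfl⟩ := hx
    positivity
  have step : ∀ k, k < m → (1 - ε) * E * S.esymm k ≤ (k + 1) * S.esymm (k + 1) := by
    intro k
    induction k with
    | zero =>
      intro _
      rw [show 0 + 1 = 1 from rfl, i2, i3]
      push_cast
      nlinarith
    | succ k ih =>
      intro hk
      have j := ih (by omega)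
      have j1 := i1 k
      rw [show k + 2 = k + 1 + 1 from rfl] at j1
      obtain ⟨e0, he0⟩ : ∃ e : ℝ, e = S.esymm k := ⟨_, rfl⟩
      obtain ⟨e1, he1⟩ : ∃ e : ℝ, e = S.esymm (k + 1) := ⟨_, rfl⟩
      have e1n : 0 ≤ e1 := by rw [he1]; exact i4 _
      have e0n : 0 ≤ e0 := by rw [he0]; exact i4 _
      rw [← he0, ← he1] at j j1
      rw [← he1]
      have hkm : (k : ℝ) + 1 ≤ m := by exact_mod_cast hk.le
      have h2 : E / 2 * e0 ≤ (k + 1) * e1 := by
        have : E / 2 * e0 ≤ (1 - ε) * E * e0 := by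
          apply mul_le_mul_of_nonneg_right _ e0n
          nlinarith
        linarith
      have h3 : σ * (E / 2 * e0) ≤ σ * ((k + 1) * e1) := mul_le_mul_of_nonneg_left h2 hσ0
      have h4 : σ * (k + 1) * e1 ≤ ε * E ^ 2 / 2 * e1 := by
        apply mul_le_mul_of_nonneg_right _ e1n
        exact (mul_le_mul_of_nonneg_left hkm hσ0).trans hσ
      have h5 : (σ * e0) * (E / 2) ≤ (ε * E * e1) * (E / 2) := by nlinarith
      have h6 : σ * e0 ≤ ε * E * e1 := le_of_mul_le_mul_right h5 (by positivity)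
      push_cast at j1 ⊢
      nlinarith
  have fin : ∀ k, k ≤ m → ((1 - ε) * E) ^ k / (k.factorial : ℝ) ≤ S.esymm k := by
    intro k
    induction k with
    | zero =>
      intro _
      rw [i3]
      simp
    | succ k ih =>
      intro hk
      have j := ih (by omega)
      have j2 := step k (by omega)
      rw [div_le_iff₀ (by positivity)] at j ⊢
      rw [Nat.factorial_succ]
      push_cast
      have h1 : 0 ≤ (1 - ε) * E := mul_nonneg (by linarith) hE.le
      calc ((1 - ε) * E) ^ (k + 1) = ((1 - ε) * E) * ((1 - ε) * E) ^ k := by ring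
        _ ≤ ((1 - ε) * E) * (S.esymm k * k.factorial) := mul_le_mul_of_nonneg_left j h1
        _ = ((1 - ε) * E * S.esymm k) * k.factorial := by ring
        _ ≤ ((k + 1) * S.esymm (k + 1)) * k.factorial := mul_le_mul_of_nonneg_right j2 (by positivity)
        _ = _ := by ring
  exact fin m le_rfl

lemma fact_le (m : ℕ) (hm : 1 ≤ m) : (m.factorial : ℝ) ≤ Real.exp (m * Real.log m - m + 1 + Real.log m) := by
  induction m, hm using Nat.le_induction with
  | base => simp
  | succ m hm ih =>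
    have hm0 : (0 : ℝ) < m := by exact_mod_cast hm
    rw [Nat.factorial_succ]
    push_cast
    have h1 : Real.exp (Real.log ((m : ℝ) + 1)) = m + 1 := Real.exp_log (by positivity)
    calc ((m : ℝ) + 1) * m.factorial ≤ ((m : ℝ) + 1) * Real.exp (m * Real.log m - m + 1 + Real.log m) :=
          mul_le_mul_of_nonneg_left ih (by positivity)
      _ = Real.exp (Real.log ((m : ℝ) + 1) + (m * Real.log m - m + 1 + Real.log m)) := by
          rw [Real.exp_add (Real.log ((m : ℝ) + 1)), h1]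
      _ ≤ _ := by
          apply Real.exp_le_exp.2
          have h2 : Real.log ((m : ℝ) / (m + 1)) ≤ m / (m + 1) - 1 := Real.log_le_sub_one_of_pos (by positivity)
          rw [Real.log_div hm0.ne' (by positivity)] at h2
          have h3 : ((m : ℝ) + 1) * (Real.log m - Real.log (m + 1)) ≤ ((m : ℝ) + 1) * (m / (m + 1) - 1) :=
            mul_le_mul_of_nonneg_left h2 (by positivity)
          have h4 : ((m : ℝ) + 1) * (m / (m + 1) - 1) = -1 := by
            field_simp
            ring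
          rw [h4] at h3
          nlinarith

/-- the lower bound for the probability of exactly `m` hits -/
lemma pr_low {ι : Type*} [DecidableEq ι] (q : ι → ℝ) (s : Finset ι) (hq0 : ∀ i ∈ s, 0 ≤ q i) (hq1 : ∀ i ∈ s, q i ≤ 1 / 2) (m : ℕ)
    (hm : 1 ≤ m) (ε : ℝ) (hε : 0 < ε) (hε1 : ε ≤ 1 / 2) (hE : 0 < ∑ i ∈ s, q i)
    (hσ : (∑ i ∈ s, q i ^ 2) * m ≤ ε * (∑ i ∈ s, q i) ^ 2 / 2) :
    Real.exp (-(∑ i ∈ s, q i) - 2 * (∑ i ∈ s, q i ^ 2) + m * Real.log ((1 - ε) * ∑ i ∈ s, q i) - (m * Real.log m - m + 1 + Real.log m)) ≤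
      pr q s m := by
  have e1 : ∀ A ∈ powersetCard m s, (∏ i ∈ A, q i) * ∏ i ∈ s, (1 - q i) ≤ ∏ i ∈ s, if i ∈ A then q i else 1 - q i := by
    intro A hA
    have hAs := (mem_powersetCard.1 hA).1
    have e2 : ∏ i ∈ A, q i = ∏ i ∈ s, if i ∈ A then q i else 1 := by
      rw [prod_ite_mem, inter_eq_right.2 hAs]
    rw [e2, ← prod_mul_distrib]
    apply prod_le_prod
    · intro i hi
      have h1 := hq0 i hi
      have h2 := hq1 i hi
      apply mul_nonneg
      · split_ifs
        · exact h1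
        · norm_num
      · linarith
    · intro i hi
      have h1 := hq0 i hi
      have h2 := hq1 i hi
      split_ifs
      · nlinarith
      · linarith
  have e3 : (s.1.map q).esymm m = ∑ A ∈ powersetCard m s, ∏ i ∈ A, q i := Finset.esymm_map_val q s m
  have e4 : (s.1.map q).sum = ∑ i ∈ s, q i := rfl
  have e5 : ((s.1.map q).map (fun x => x ^ 2)).sum = ∑ i ∈ s, q i ^ 2 := by
    rw [Multiset.map_map]
    rfl
  have h1 := es_low (s.1.map q) (by
    intro x hx
    rw [Multiset.mem_map] at hx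
    obtain ⟨i, hi, rfl⟩ := hx
    exact hq0 i hi) m ε hε hε1 (by rw [e4]; exact hE) (by rw [e5, e4]; exact hσ)
  rw [e3, e4] at h1
  have h2 : Real.exp (-(∑ i ∈ s, q i) - 2 * (∑ i ∈ s, q i ^ 2)) ≤ ∏ i ∈ s, (1 - q i) := by
    rw [mul_sum, ← sum_neg_distrib, ← sum_sub_distrib, Real.exp_sum]
    apply prod_le_prod
    · intro i _
      exact (Real.exp_pos _).le
    · intro i hi
      have g1 := hq0 i hi
      have g2 := hq1 i hi
      have g3 : 0 < 1 - q i := by linarith
      rw [← Real.le_log_iff_exp_le g3]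
      have g4 := Real.one_sub_inv_le_log_of_pos g3
      have g5 : (1 - q i)⁻¹ ≤ 1 + q i + 2 * q i ^ 2 := by
        rw [← one_div, div_le_iff₀ g3]
        nlinarith [mul_nonneg (sq_nonneg (q i)) (show 0 ≤ 1 - 2 * q i by linarith)]
      linarith
  have hE' : 0 < (1 - ε) * ∑ i ∈ s, q i := mul_pos (by linarith) hE
  have h3 : Real.exp (m * Real.log ((1 - ε) * ∑ i ∈ s, q i) - (m * Real.log m - m + 1 + Real.log m)) ≤
      ((1 - ε) * ∑ i ∈ s, q i) ^ m / (m.factorial : ℝ) := by
    rw [Real.exp_sub, Real.exp_nat_mul, Real.exp_log hE']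
    apply div_le_div_of_nonneg_left (by positivity) (by positivity) (fact_le m hm)
  calc Real.exp (-(∑ i ∈ s, q i) - 2 * (∑ i ∈ s, q i ^ 2) + m * Real.log ((1 - ε) * ∑ i ∈ s, q i) - (m * Real.log m - m + 1 + Real.log m))
      = Real.exp (m * Real.log ((1 - ε) * ∑ i ∈ s, q i) - (m * Real.log m - m + 1 + Real.log m)) *
        Real.exp (-(∑ i ∈ s, q i) - 2 * (∑ i ∈ s, q i ^ 2)) := by
        rw [← Real.exp_add]
        congr 1
        ring
    _ ≤ (((1 - ε) * ∑ i ∈ s, q i) ^ m / (m.factorial : ℝ)) * ∏ i ∈ s, (1 - q i) :=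
        mul_le_mul h3 h2 (Real.exp_pos _).le (by positivity)
    _ ≤ (∑ A ∈ powersetCard m s, ∏ i ∈ A, q i) * ∏ i ∈ s, (1 - q i) := by
        apply mul_le_mul_of_nonneg_right h1
        apply prod_nonneg
        intro i hi
        have := hq1 i hi
        linarith
    _ ≤ _ := by
        unfold pr
        rw [sum_mul]
        exact sum_le_sum e1

end Pool.Agent.H46.LT
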