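import Pool.Agent.H46.LT.Clus1

/-!
# Clusters of primes with given Frobenius traces: the law of the counts in one or two windows
-/

set_option autoImplicit false

namespace Pool.Agent.H46.LT

open Finset Pool.Agent.K4H16.CG

variable {n r : ℕ}

/-- The expected number of the primes `p ≤ y` that satisfy the condition. -/
noncomputable def ex (W : Fin r → WeierstrassCurve (MvPolynomial (Fin n) ℤ)) (S : ℕ → (Fin r → Option ℤ) → Prop) (y : ℕ) : ℝ :=
  ∑ p ∈ (range (y + 1)).filter Nat.Prime, freq W S p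

/-- The sum of the squares of the frequencies `freq p` over the primes `p ≤ y`. -/
noncomputable def ex2 (W : Fin r → WeierstrassCurve (MvPolynomial (Fin n) ℤ)) (S : ℕ → (Fin r → Option ℤ) → Prop) (y : ℕ) : ℝ :=
  ∑ p ∈ (range (y + 1)).filter Nat.Prime, freq W S p ^ 2

open Classical in
/-- The number of the primes `p` with `a < p ≤ b` that satisfy the condition at the integer point `v`. -/
noncomputable def hits (W : Fin r → WeierstrassCurve (MvPolynomial (Fin n) ℤ)) (S : ℕ → (Fin r → Option ℤ) → Prop) (a b : ℕ)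
    (v : Fin n → ℤ) : ℕ := ((range (b + 1)).filter (fun p => p.Prime ∧ a < p ∧ Hit W S p v)).card

/-- the window as a set of primes -/
def sw (x a b : ℕ) : Finset (PrimesUpTo x) := univ.filter (fun p : PrimesUpTo x => a < (p : ℕ) ∧ (p : ℕ) ≤ b)

lemma sw_sum (x a b : ℕ) (hab : a ≤ b) (hbx : b ≤ x) (g : ℕ → ℝ) : ∑ p ∈ sw x a b, g p =
    ∑ p ∈ (range (b + 1)).filter Nat.Prime, g p - ∑ p ∈ (range (a + 1)).filter Nat.Prime, g p := by
  rw [← sum_split g a b hab, ← wsum g a b x hbx]
  unfold sw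
  rw [sum_filter]
  exact sum_coe_sort ((range (x + 1)).filter Nat.Prime) (fun p => if a < p ∧ p ≤ b then g p else 0)

open Classical in
lemma law_sum (W : Fin r → WeierstrassCurve (MvPolynomial (Fin n) ℤ)) (S : ℕ → (Fin r → Option ℤ) → Prop) (D : ℕ → Prop) (p : ℕ)
    [NeZero p] : lawMod W (th S D) p 0 + lawMod W (th S D) p 1 = 1 := by
  have h : lawMod W (th S D) p 1 = 1 - lawMod W (th S D) p 0 := by
    unfold lawMod
    rw [← meanMod_one_sub]
    congr 1
    funext c
    by_cases h2 : mark W (th S D) p c = 0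
    · rw [if_pos h2, if_neg (by rw [h2]; decide)]
      norm_num
    · rw [if_neg h2, if_pos (by
        rcases Fin.exists_fin_two.1 ⟨mark W (th S D) p c, rfl⟩ with h3 | h3
        · exact absurd h3 h2
        · exact h3)]
      norm_num
  rw [h]
  ring

open Classical in
lemma law_nonneg (W : Fin r → WeierstrassCurve (MvPolynomial (Fin n) ℤ)) (S : ℕ → (Fin r → Option ℤ) → Prop) (D : ℕ → Prop) (p : ℕ)
    (j : Fin (1 + 1)) : 0 ≤ lawMod W (th S D) p j := by
  unfold lawMod meanMod
  apply div_nonneg _ (by positivity)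
  apply sum_nonneg
  intro c _
  beta_reduce
  split_ifs <;> norm_num

open Classical in
lemma expected_eq (W : Fin r → WeierstrassCurve (MvPolynomial (Fin n) ℤ)) (S : ℕ → (Fin r → Option ℤ) → Prop) (D : ℕ → Prop) (x : ℕ) :
    expected W (th S D) x = ∑ p ∈ (range (x + 1)).filter Nat.Prime, if D p then freq W S p else 0 := by
  unfold expected
  apply sum_congr rfl
  intro p hp
  rw [mem_filter] at hp
  have : NeZero p := ⟨hp.2.ne_zero⟩
  have e : meanMod p (fun c => if mark W (th S D) p c ≠ 0 then (1 : ℝ) else 0) = 1 - lawMod W (th S D) p 0 := by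
    unfold lawMod
    rw [← meanMod_one_sub]
    congr 1
    funext c
    by_cases h2 : mark W (th S D) p c = 0
    · rw [if_pos h2, if_neg (fun h3 => h3 h2)]
      norm_num
    · rw [if_neg h2, if_pos h2]
      norm_num
  rw [e, law_zero]
  split_ifs
  · ring
  · norm_num

open Classical in
lemma hits_eq (W : Fin r → WeierstrassCurve (MvPolynomial (Fin n) ℤ)) (S : ℕ → (Fin r → Option ℤ) → Prop) (D : ℕ → Prop) (x a b : ℕ)
    (hbx : b ≤ x) (hD : ∀ p, a < p → p ≤ b → D p) (v : Fin n → ℤ) :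
    ((sw x a b).filter (fun i : PrimesUpTo x => mark W (th S D) i v ≠ 0)).card = hits W S a b v := by
  unfold hits
  refine card_bij (fun i _ => (i : ℕ)) ?_ ?_ ?_
  · intro i hi
    unfold sw at hi
    rw [mem_filter, mem_filter] at hi
    have hi2 := i.2
    rw [mem_filter] at hi2
    rw [mem_filter, mem_range]
    refine ⟨by omega, hi2.2, hi.1.2.1, ?_⟩
    by_contra h
    exact hi.2 ((mark_zero W S D i v).2 fun _ => h)
  · intro i _ j _ h
    exact Subtype.ext h
  · intro p hp
    rw [mem_filter, mem_range] at hp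
    refine ⟨⟨p, by rw [mem_filter, mem_range]; exact ⟨by omega, hp.2.1⟩⟩, ?_, rfl⟩
    unfold sw
    rw [mem_filter, mem_filter]
    refine ⟨⟨mem_univ _, hp.2.2.1, by show p ≤ b; omega⟩, ?_⟩
    intro h
    exact (mark_zero W S D p v).1 h (hD p hp.2.2.1 (by omega)) hp.2.2.2

lemma prime_pos {x : ℕ} (p : PrimesUpTo x) : (p : ℕ) ≠ 0 := by
  have := p.2
  rw [mem_filter] at this
  exact this.2.ne_zero

open Classical in
/-- two disjoint windows -/
theorem pair_prob (n : ℕ) : ∃ B : ℕ, ∀ (r : ℕ) (W : Fin r → WeierstrassCurve (MvPolynomial (Fin n) ℤ))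
    (S : ℕ → (Fin r → Option ℤ) → Prop) (x : ℕ), 2 ≤ x → ∀ L : ℝ, 1 ≤ L → ∀ a b a' b' : ℕ, a ≤ b → b ≤ a' → a' ≤ b' → b' ≤ x →
    ∀ (M : Fin n → ℤ) (N : Fin n → ℕ), (∀ i, (x : ℝ) ^ ((B : ℝ) * ((ex W S b - ex W S a) + (ex W S b' - ex W S a') + L)) ≤ N i) →
    ∀ m m' : ℕ, |(((box M N).filter (fun v => hits W S a b v = m ∧ hits W S a' b' v = m')).card : ℝ) -
        pr (fun p : PrimesUpTo x => freq W S p) (sw x a b) m * pr (fun p : PrimesUpTo x => freq W S p) (sw x a' b') m' *
          (box M N).card| ≤ Real.exp (-L) * (box M N).card := by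
  obtain ⟨B, hB⟩ := tv_family n 1 1
  refine ⟨B, ?_⟩
  intro r W S x hx L hL a b a' b' hab hba hab' hbx M N hN m m'
  have hx1 : (1 : ℝ) ≤ x := by exact_mod_cast (show 1 ≤ x by omega)
  obtain ⟨D, hD⟩ : ∃ D : ℕ → Prop, D = fun p => (a < p ∧ p ≤ b) ∨ (a' < p ∧ p ≤ b') := ⟨_, rfl⟩
  have he : expected W (th S D) x = (ex W S b - ex W S a) + (ex W S b' - ex W S a') := by
    rw [expected_eq]
    have e1 : ∀ p ∈ (range (x + 1)).filter Nat.Prime, (if D p then freq W S p else 0) =
        (if a < p ∧ p ≤ b then freq W S p else 0) + (if a' < p ∧ p ≤ b' then freq W S p else 0) := by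
      intro p _
      rw [hD]
      by_cases h1 : a < p ∧ p ≤ b
      · have h2 : ¬ (a' < p ∧ p ≤ b') := by omega
        rw [if_pos (Or.inl h1), if_pos h1, if_neg h2, add_zero]
      · by_cases h2 : a' < p ∧ p ≤ b'
        · rw [if_pos (Or.inr h2), if_neg h1, if_pos h2, zero_add]
        · rw [if_neg (not_or.2 ⟨h1, h2⟩), if_neg h1, if_neg h2, add_zero]
    rw [sum_congr rfl e1, sum_add_distrib, wsum (fun p => freq W S p) a b x (by omega), wsum (fun p => freq W S p) a' b' x hbx,
      sum_split (fun p => freq W S p) a b hab, sum_split (fun p => freq W S p) a' b' hab']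
    rfl
  have he0 : 0 ≤ expected W (th S D) x := by
    rw [expected_eq]
    apply sum_nonneg
    intro p _
    split_ifs
    · exact freq_nonneg W S p
    · exact le_rfl
  obtain ⟨G, hG⟩ : ∃ G : (PrimesUpTo x → Fin (1 + 1)) → ℝ, G = fun f =>
    ((if ((sw x a b).filter (fun i => f i ≠ 0)).card = m then (1 : ℝ) else 0) *
      (if ((sw x a' b').filter (fun i => f i ≠ 0)).card = m' then (1 : ℝ) else 0)) := ⟨_, rfl⟩
  have h1 := hB r W (th S D) x hx L hL M N (by
    intro i
    rw [he]
    exact hN i) G (by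
    intro f
    rw [hG]
    simp only
    split_ifs <;> norm_num)
  have e1 : ∑ v ∈ box M N, G (fun p => mark W (th S D) p v) =
      (((box M N).filter (fun v => hits W S a b v = m ∧ hits W S a' b' v = m')).card : ℝ) := by
    rw [← sum_boole]
    apply sum_congr rfl
    intro v _
    rw [hG]
    simp only
    rw [hits_eq W S D x a b (by omega) (by intro p h2 h3; rw [hD]; exact Or.inl ⟨h2, h3⟩) v,
      hits_eq W S D x a' b' hbx (by intro p h2 h3; rw [hD]; exact Or.inr ⟨h2, h3⟩) v]
    by_cases h2 : hits W S a b v = m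
    · by_cases h3 : hits W S a' b' v = m'
      · have h4 : hits W S a b v = m ∧ hits W S a' b' v = m' := ⟨h2, h3⟩
        rw [if_pos h2, if_pos h3, if_pos h4, one_mul]
      · have h4 : ¬ (hits W S a b v = m ∧ hits W S a' b' v = m') := fun h => h3 h.2
        rw [if_neg h3, if_neg h4, mul_zero]
    · have h4 : ¬ (hits W S a b v = m ∧ hits W S a' b' v = m') := fun h => h2 h.1
      rw [if_neg h2, if_neg h4, zero_mul]
  have hst : Disjoint (sw x a b) (sw x a' b') := by
    rw [disjoint_left]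
    intro p h2 h3
    unfold sw at h2 h3
    rw [mem_filter] at h2 h3
    omega
  have e2 : ∑ f : PrimesUpTo x → Fin (1 + 1), G f * ∏ p : PrimesUpTo x, lawMod W (th S D) p (f p) =
      pr (fun p : PrimesUpTo x => freq W S p) (sw x a b) m * pr (fun p : PrimesUpTo x => freq W S p) (sw x a' b') m' := by
    rw [hG]
    refine pair_law (fun (p : PrimesUpTo x) j => lawMod W (th S D) p j) (fun p : PrimesUpTo x => freq W S p) ?_ (sw x a b) (sw x a' b') hst
      ?_ m m'
    · intro p
      have : NeZero (p : ℕ) := ⟨prime_pos p⟩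
      exact law_sum W S D p
    · intro p hp
      have : NeZero (p : ℕ) := ⟨prime_pos p⟩
      have h2 := law_sum W S D p
      rw [law_zero, if_pos (by
        rw [hD]
        unfold sw at hp
        rw [mem_filter, mem_filter] at hp
        rcases hp with hp | hp
        · exact Or.inl hp.2
        · exact Or.inr hp.2)] at h2
      linarith
  rw [e1, e2, mul_comm ((box M N).card : ℝ)] at h1
  refine h1.trans ?_
  apply mul_le_mul_of_nonneg_right _ (Nat.cast_nonneg _)
  apply Real.exp_le_exp.2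
  linarith

open Classical in
/-- deviations in one window -/
theorem dev_prob (n : ℕ) : ∃ B : ℕ, ∀ (r : ℕ) (W : Fin r → WeierstrassCurve (MvPolynomial (Fin n) ℤ))
    (S : ℕ → (Fin r → Option ℤ) → Prop) (x : ℕ), 2 ≤ x → ∀ L : ℝ, 1 ≤ L → ∀ a b : ℕ, a ≤ b → b ≤ x →
    ∀ (M : Fin n → ℤ) (N : Fin n → ℕ), (∀ i, (x : ℝ) ^ ((B : ℝ) * ((ex W S b - ex W S a) + L)) ≤ N i) →
    ∀ t c : ℝ, (((box M N).filter (fun v => 0 ≤ t * (hits W S a b v : ℝ) - c)).card : ℝ) ≤
      (Real.exp ((Real.exp t - 1) * (ex W S b - ex W S a) - c) + Real.exp (-L)) * (box M N).card := by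
  obtain ⟨B, hB⟩ := tv_family n 1 1
  refine ⟨B, ?_⟩
  intro r W S x hx L hL a b hab hbx M N hN t c
  have hx1 : (1 : ℝ) ≤ x := by exact_mod_cast (show 1 ≤ x by omega)
  obtain ⟨D, hD⟩ : ∃ D : ℕ → Prop, D = fun p => (a < p ∧ p ≤ b) := ⟨_, rfl⟩
  have he : expected W (th S D) x = ex W S b - ex W S a := by
    have e0 : ex W S b - ex W S a = ∑ p ∈ (range (x + 1)).filter Nat.Prime, (if a < p ∧ p ≤ b then freq W S p else 0) := by
      rw [wsum (fun p => freq W S p) a b x hbx, sum_split (fun p => freq W S p) a b hab]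
      rfl
    rw [expected_eq, e0]
    apply sum_congr rfl
    intro p _
    rw [hD]
    by_cases h : a < p ∧ p ≤ b
    · rw [if_pos h, if_pos h]
    · rw [if_neg h, if_neg h]
  have he0 : 0 ≤ expected W (th S D) x := by
    rw [expected_eq]
    apply sum_nonneg
    intro p _
    split_ifs
    · exact freq_nonneg W S p
    · exact le_rfl
  obtain ⟨G, hG⟩ : ∃ G : (PrimesUpTo x → Fin (1 + 1)) → ℝ, G = fun f =>
    if 0 ≤ t * (((sw x a b).filter (fun i => f i ≠ 0)).card : ℝ) - c then (1 : ℝ) else 0 := ⟨_, rfl⟩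
  have h1 := hB r W (th S D) x hx L hL M N (by
    intro i
    rw [he]
    exact hN i) G (by
    intro f
    rw [hG]
    simp only
    split_ifs <;> norm_num)
  have e1 : ∑ v ∈ box M N, G (fun p => mark W (th S D) p v) =
      (((box M N).filter (fun v => 0 ≤ t * (hits W S a b v : ℝ) - c)).card : ℝ) := by
    rw [← sum_boole]
    apply sum_congr rfl
    intro v _
    rw [hG]
    simp only
    rw [hits_eq W S D x a b hbx (by intro p h2 h3; rw [hD]; exact ⟨h2, h3⟩) v]
  have hE : ∑ p ∈ sw x a b, freq W S p = ex W S b - ex W S a := sw_sum x a b hab hbx (fun p => freq W S p)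
  have e2 : ∑ f : PrimesUpTo x → Fin (1 + 1), G f * ∏ p : PrimesUpTo x, lawMod W (th S D) p (f p) ≤
      Real.exp ((Real.exp t - 1) * (ex W S b - ex W S a) - c) := by
    rw [← hE]
    refine chern (fun (p : PrimesUpTo x) j => lawMod W (th S D) p j) (fun p : PrimesUpTo x => freq W S p) ?_ ?_ (sw x a b) ?_ G t c ?_
    · intro p j
      exact law_nonneg W S D p j
    · intro p
      have : NeZero (p : ℕ) := ⟨prime_pos p⟩
      exact law_sum W S D p
    · intro p hp
      have : NeZero (p : ℕ) := ⟨prime_pos p⟩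
      have h2 := law_sum W S D p
      rw [law_zero, if_pos (by
        rw [hD]
        unfold sw at hp
        rw [mem_filter] at hp
        exact hp.2)] at h2
      linarith
    · intro f
      rw [hG]
      simp only
      split_ifs with h
      · exact Real.one_le_exp h
      · exact (Real.exp_pos _).le
  rw [e1] at h1
  have h2 := (abs_le.1 h1).2
  have h3 : ((box M N).card : ℝ) * ∑ f : PrimesUpTo x → Fin (1 + 1), G f * ∏ p : PrimesUpTo x, lawMod W (th S D) p (f p) ≤
      ((box M N).card : ℝ) * Real.exp ((Real.exp t - 1) * (ex W S b - ex W S a) - c) := mul_le_mul_of_nonneg_left e2 (Nat.cast_nonneg _)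
  have h4 : Real.exp (-(1 * (expected W (th S D) x + L))) * ((box M N).card : ℝ) ≤ Real.exp (-L) * (box M N).card := by
    apply mul_le_mul_of_nonneg_right _ (Nat.cast_nonneg _)
    apply Real.exp_le_exp.2
    linarith
  rw [add_mul]
  linarith

lemma ex_mono (W : Fin r → WeierstrassCurve (MvPolynomial (Fin n) ℤ)) (S : ℕ → (Fin r → Option ℤ) → Prop) (a b : ℕ) (hab : a ≤ b) :
    ex W S a ≤ ex W S b := by
  unfold ex
  apply sum_le_sum_of_subset_of_nonneg
  · intro p hp
    rw [mem_filter, mem_range] at hp ⊢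
    exact ⟨by omega, hp.2⟩
  · intro p _ _
    exact freq_nonneg W S p

lemma ex2_mono (W : Fin r → WeierstrassCurve (MvPolynomial (Fin n) ℤ)) (S : ℕ → (Fin r → Option ℤ) → Prop) (a b : ℕ) (hab : a ≤ b) :
    ex2 W S a ≤ ex2 W S b := by
  unfold ex2
  apply sum_le_sum_of_subset_of_nonneg
  · intro p hp
    rw [mem_filter, mem_range] at hp ⊢
    exact ⟨by omega, hp.2⟩
  · intro p _ _
    exact sq_nonneg _

lemma small_primes (x : ℕ) (hx : x < 2) : (range (x + 1)).filter Nat.Prime = ∅ := by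
  rw [filter_eq_empty_iff]
  intro p hp
  rw [mem_range] at hp
  intro h
  have := h.two_le
  omega

lemma ex_small (W : Fin r → WeierstrassCurve (MvPolynomial (Fin n) ℤ)) (S : ℕ → (Fin r → Option ℤ) → Prop) (x : ℕ) (hx : x < 2) :
    ex W S x = 0 := by
  unfold ex
  rw [small_primes x hx, sum_empty]

lemma ex2_small (W : Fin r → WeierstrassCurve (MvPolynomial (Fin n) ℤ)) (S : ℕ → (Fin r → Option ℤ) → Prop) (x : ℕ) (hx : x < 2) :
    ex2 W S x = 0 := by
  unfold ex2
  rw [small_primes x hx, sum_empty]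

lemma ex_succ (W : Fin r → WeierstrassCurve (MvPolynomial (Fin n) ℤ)) (S : ℕ → (Fin r → Option ℤ) → Prop)
    (hq : ∀ p, p.Prime → freq W S p ≤ 1 / 2) (a : ℕ) : ex W S (a + 1) ≤ ex W S a + 1 := by
  unfold ex
  rw [range_add_one (n := a + 1), filter_insert]
  split_ifs with h
  · rw [sum_insert (by rw [mem_filter, mem_range]; omega)]
    have h1 := hq (a + 1) h
    linarith
  · linarith

/-- the first height at which the expected number is at least `t` -/
noncomputable def ge (W : Fin r → WeierstrassCurve (MvPolynomial (Fin n) ℤ)) (S : ℕ → (Fin r → Option ℤ) → Prop) (t : ℕ) : ℕ :=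
  sInf {y | (t : ℝ) ≤ ex W S y}

lemma ge_le (W : Fin r → WeierstrassCurve (MvPolynomial (Fin n) ℤ)) (S : ℕ → (Fin r → Option ℤ) → Prop) (t y : ℕ)
    (h : (t : ℝ) ≤ ex W S y) : ge W S t ≤ y := Nat.sInf_le h

lemma ge_ge (W : Fin r → WeierstrassCurve (MvPolynomial (Fin n) ℤ)) (S : ℕ → (Fin r → Option ℤ) → Prop) (t y : ℕ)
    (h : (t : ℝ) ≤ ex W S y) : (t : ℝ) ≤ ex W S (ge W S t) := Nat.sInf_mem (s := {y | (t : ℝ) ≤ ex W S y}) ⟨y, h⟩

lemma ge_lt (W : Fin r → WeierstrassCurve (MvPolynomial (Fin n) ℤ)) (S : ℕ → (Fin r → Option ℤ) → Prop)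
    (hq : ∀ p, p.Prime → freq W S p ≤ 1 / 2) (t : ℕ) : ex W S (ge W S t) ≤ t + 1 := by
  rcases Nat.eq_zero_or_pos (ge W S t) with h0 | h0
  · rw [h0, ex_small W S 0 (by norm_num)]
    positivity
  · obtain ⟨a, ha⟩ := Nat.exists_eq_succ_of_ne_zero h0.ne'
    have h1 : ¬ (t : ℝ) ≤ ex W S a := by
      intro h2
      have := ge_le W S t a h2
      omega
    have h2 := ex_succ W S hq a
    rw [ha]
    change ex W S (a + 1) ≤ _
    push Not at h1
    linarith

lemma ge_mono (W : Fin r → WeierstrassCurve (MvPolynomial (Fin n) ℤ)) (S : ℕ → (Fin r → Option ℤ) → Prop) (s t y : ℕ) (hst : s ≤ t)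
    (h : (t : ℝ) ≤ ex W S y) : ge W S s ≤ ge W S t := by
  apply ge_le
  have h1 := ge_ge W S t y h
  have h2 : (s : ℝ) ≤ t := by exact_mod_cast hst
  linarith

open Classical in
lemma hits_mono (W : Fin r → WeierstrassCurve (MvPolynomial (Fin n) ℤ)) (S : ℕ → (Fin r → Option ℤ) → Prop) (a b a' b' : ℕ)
    (ha : a' ≤ a) (hb : b ≤ b') (v : Fin n → ℤ) : hits W S a b v ≤ hits W S a' b' v := by
  unfold hits
  apply card_le_card
  intro p hp
  rw [mem_filter, mem_range] at hp ⊢
  exact ⟨by omega, hp.2.1, by omega, hp.2.2.2⟩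

end Pool.Agent.H46.LT
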