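import Pool.Agent.H46.LT.Clus2

/-!
# Clusters of primes with given Frobenius traces: no exceptional windows
-/

set_option autoImplicit false

namespace Pool.Agent.H46.LT

open Finset Pool.Agent.K4H16.CG

variable {n r : ℕ}

/-- The rate function of the Poisson law: a Poisson variable of mean `c l` deviates to `α l` with the probability
`exp (-(rate α c + o(1)) l)`. -/
noncomputable def rate (α c : ℝ) : ℝ := α * Real.log (α / c) - α + c

open Classical in
lemma one_win (n : ℕ) (c α : ℝ) (hc : 0 < c) (hα : 0 < α) : ∃ B : ℕ, ∀ (r : ℕ) (W : Fin r → WeierstrassCurve (MvPolynomial (Fin n) ℤ))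
    (S : ℕ → (Fin r → Option ℤ) → Prop) (x : ℕ), 2 ≤ x → ∀ l L K : ℝ, 1 ≤ L → ∀ a b : ℕ, a ≤ b → b ≤ x →
    (α / c - 1) * (ex W S b - ex W S a) ≤ (α - c) * l + K →
    ∀ (M : Fin n → ℤ) (N : Fin n → ℕ), (∀ i, (x : ℝ) ^ ((B : ℝ) * ((ex W S b - ex W S a) + L)) ≤ N i) →
    (((box M N).filter (fun v => 0 ≤ Real.log (α / c) * (hits W S a b v : ℝ) - Real.log (α / c) * (α * l))).card : ℝ) ≤
      (Real.exp (K - l * rate α c) + Real.exp (-L)) * (box M N).card := by
  obtain ⟨B, H⟩ := dev_prob n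
  refine ⟨B, ?_⟩
  intro r W S x hx l L K hL a b hab hbx hE M N hN
  refine (H r W S x hx L hL a b hab hbx M N hN (Real.log (α / c)) (Real.log (α / c) * (α * l))).trans ?_
  apply mul_le_mul_of_nonneg_right _ (Nat.cast_nonneg _)
  have h1 : Real.exp ((Real.exp (Real.log (α / c)) - 1) * (ex W S b - ex W S a) - Real.log (α / c) * (α * l)) ≤
      Real.exp (K - l * rate α c) := by
    apply Real.exp_le_exp.2
    rw [Real.exp_log (by positivity)]
    unfold rate
    nlinarith
  linarith

lemma x_two (W : Fin r → WeierstrassCurve (MvPolynomial (Fin n) ℤ)) (S : ℕ → (Fin r → Option ℤ) → Prop) (x : ℕ) (l : ℝ)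
    (hV : ex W S x = Real.exp l) : 2 ≤ x := by
  by_contra hcon
  push Not at hcon
  rw [ex_small W S x hcon] at hV
  exact (Real.exp_pos l).ne hV

open Classical in
/-- no windows with too many hits -/
theorem many_upper (n : ℕ) (c α : ℝ) (hc : 0 < c) (hα : c < α) (hr : 1 < rate α c) : ∃ (A κ Λ : ℝ), 1 ≤ A ∧ 0 < κ ∧ 1 ≤ Λ ∧ ∀ (r : ℕ)
    (W : Fin r → WeierstrassCurve (MvPolynomial (Fin n) ℤ)) (S : ℕ → (Fin r → Option ℤ) → Prop), (∀ p, p.Prime → freq W S p ≤ 1 / 2) →
    ∀ (x : ℕ) (l : ℝ) (M : Fin n → ℤ) (N : Fin n → ℕ), ex W S x = Real.exp l → Λ ≤ l → (∀ i, (x : ℝ) ^ (A * l) ≤ N i) →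
      (((box M N).filter (fun v => ¬ ∀ a b : ℕ, a ≤ b → b ≤ x → ex W S b - ex W S a ≤ c * l →
        (hits W S a b v : ℝ) < α * l)).card : ℝ) ≤ Real.exp (-(κ * l)) * (box M N).card := by
  have hα0 : 0 < α := hc.trans hα
  obtain ⟨B, H⟩ := one_win n c α hc hα0
  obtain ⟨κ, hκ⟩ : ∃ κ : ℝ, κ = (rate α c - 1) / 2 := ⟨_, rfl⟩
  have hκ0 : 0 < κ := by rw [hκ]; linarith
  obtain ⟨K, hK⟩ : ∃ K : ℝ, K = 3 * (α / c - 1) := ⟨_, rfl⟩
  have hac : 0 < α / c - 1 := by
    rw [sub_pos, lt_div_iff₀ hc]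
    linarith
  refine ⟨B * (c + 3 + rate α c) + 1, κ, max 1 (2 * (Real.exp K + 1) / κ), ?_, hκ0, le_max_left _ _, ?_⟩
  · have : 0 ≤ (B : ℝ) * (c + 3 + rate α c) := by positivity
    linarith
  intro r W S hq x l M N hV hl hN
  have hl1 : 1 ≤ l := (le_max_left _ _).trans hl
  have hl2 : 2 * (Real.exp K + 1) ≤ κ * l := by
    have h := (le_max_right _ _).trans hl
    rw [div_le_iff₀ hκ0] at h
    linarith
  have hl0 : 0 < l := by linarith
  have hx := x_two W S x l hV
  have hx1 : (1 : ℝ) ≤ x := by exact_mod_cast (show 1 ≤ x by omega)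
  have hbox0 : (0 : ℝ) ≤ (box M N).card := Nat.cast_nonneg _
  obtain ⟨w, hw⟩ : ∃ w : ℕ, w = ⌈c * l⌉₊ + 1 := ⟨_, rfl⟩
  have hw1 : c * l + 1 ≤ w := by
    rw [hw]
    push_cast
    linarith [Nat.le_ceil (c * l)]
  have hw2 : (w : ℝ) ≤ c * l + 2 := by
    rw [hw]
    push_cast
    linarith [Nat.ceil_lt_add_one (show 0 ≤ c * l by positivity)]
  obtain ⟨T, hT⟩ : ∃ T : ℕ, T = ⌊Real.exp l⌋₊ := ⟨_, rfl⟩
  have hT0 : (T : ℝ) ≤ Real.exp l := by rw [hT]; exact Nat.floor_le (Real.exp_pos l).le
  have hTr : ((T + 1 : ℕ) : ℝ) ≤ 2 * Real.exp l := by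
    push_cast
    linarith [Real.one_le_exp hl0.le]
  obtain ⟨e, he⟩ : ∃ e : ℕ → ℕ, e = fun s => if ((s + w : ℕ) : ℝ) ≤ ex W S x then ge W S (s + w) else x := ⟨_, rfl⟩
  have he1 : ∀ s, ex W S (e s) ≤ s + w + 1 ∧ e s ≤ x := by
    intro s
    rw [he]
    by_cases h : ((s + w : ℕ) : ℝ) ≤ ex W S x
    · beta_reduce
      rw [if_pos h]
      have := ge_lt W S hq (s + w)
      push_cast at this
      exact ⟨this, ge_le W S _ _ h⟩
    · beta_reduce
      rw [if_neg h]
      push_cast at h
      exact ⟨by linarith, le_rfl⟩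
  have hone : ∀ s ∈ range (T + 1), (((box M N).filter (fun v => 0 ≤ Real.log (α / c) * (hits W S (ge W S s) (e s) v : ℝ) -
      Real.log (α / c) * (α * l))).card : ℝ) ≤ (Real.exp (K - l * rate α c) + Real.exp (-(rate α c * l))) * (box M N).card := by
    intro s hs
    rw [mem_range] at hs
    have hs' : (s : ℝ) ≤ ex W S x := by
      rw [hV]
      refine le_trans ?_ hT0
      exact_mod_cast (show s ≤ T by omega)
    have g3 := ge_ge W S s x hs'
    have g1 : ge W S s ≤ e s := by
      rw [he]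
      beta_reduce
      split_ifs with h
      · exact ge_mono W S s (s + w) x (Nat.le_add_right _ _) h
      · exact ge_le W S s x hs'
    have g2 := (he1 s).1
    have g4 : ex W S (e s) - ex W S (ge W S s) ≤ c * l + 3 := by linarith
    refine H r W S x hx l (rate α c * l) K ?_ _ _ g1 (he1 s).2 ?_ M N ?_
    · nlinarith
    · have h5 := mul_le_mul_of_nonneg_left g4 hac.le
      have h6 : (α / c - 1) * (c * l + 3) = (α - c) * l + K := by
        rw [hK]
        field_simp
      linarith
    · intro i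
      refine le_trans (Real.rpow_le_rpow_of_exponent_le hx1 ?_) (hN i)
      have h5 : (ex W S (e s) - ex W S (ge W S s) + rate α c * l) ≤ (c + 3 + rate α c) * l := by nlinarith
      have h6 := mul_le_mul_of_nonneg_left h5 (Nat.cast_nonneg (α := ℝ) B)
      linarith
  have hc' := card_exists_le (box M N) (range (T + 1)) (fun v => ¬ ∀ a b : ℕ, a ≤ b → b ≤ x → ex W S b - ex W S a ≤ c * l →
        (hits W S a b v : ℝ) < α * l)
    (fun s v => 0 ≤ Real.log (α / c) * (hits W S (ge W S s) (e s) v : ℝ) - Real.log (α / c) * (α * l)) (by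
      intro v hv
      by_contra hcon
      apply hv
      intro a b hab hbx hD
      by_contra h1
      apply hcon
      push Not at h1
      have hca : 0 ≤ ex W S a := by
        have := ex_mono W S 0 a (Nat.zero_le a)
        rwa [ex_small W S 0 (by norm_num)] at this
      obtain ⟨s, hs⟩ : ∃ s : ℕ, s = ⌊ex W S a⌋₊ := ⟨_, rfl⟩
      have hs1 : ex W S a < s + 1 := by
        rw [hs]
        exact Nat.lt_floor_add_one _
      have hs2 : (s : ℝ) ≤ ex W S a := by
        rw [hs]
        exact Nat.floor_le hca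
      have hax := ex_mono W S a x (hab.trans hbx)
      refine ⟨s, ?_, ?_⟩
      · rw [mem_range, hT]
        rw [hV] at hax
        have := Nat.le_floor (hs2.trans hax)
        omega
      · have hga : ge W S s ≤ a := ge_le W S s a hs2
        have hbe : b ≤ e s := by
          rw [he]
          beta_reduce
          split_ifs with h
          · by_contra hcon2
            push Not at hcon2
            have h5 := ex_mono W S _ _ hcon2.le
            have h6 := ge_ge W S (s + w) x h
            push_cast at h6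
            linarith
          · exact hbx
        have hmono : (hits W S a b v : ℝ) ≤ hits W S (ge W S s) (e s) v := by
          exact_mod_cast hits_mono W S a b _ _ hga hbe v
        have hlog : 0 < Real.log (α / c) := Real.log_pos (by linarith)
        have h7 : α * l ≤ (hits W S (ge W S s) (e s) v : ℝ) := h1.trans hmono
        have h8 := mul_le_mul_of_nonneg_left h7 hlog.le
        linarith)
  refine hc'.trans ((sum_le_sum hone).trans ?_)
  rw [sum_const, card_range, nsmul_eq_mul, ← mul_assoc]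
  apply mul_le_mul_of_nonneg_right _ hbox0
  have e1 : Real.exp (K - l * rate α c) + Real.exp (-(rate α c * l)) = (Real.exp K + 1) * Real.exp (-(rate α c * l)) := by
    rw [add_mul, one_mul, ← Real.exp_add]
    congr 2
    ring
  rw [e1]
  calc ((T + 1 : ℕ) : ℝ) * ((Real.exp K + 1) * Real.exp (-(rate α c * l)))
      ≤ (2 * Real.exp l) * ((Real.exp K + 1) * Real.exp (-(rate α c * l))) := by gcongr
    _ = (2 * (Real.exp K + 1)) * (Real.exp l * Real.exp (-(rate α c * l))) := by ring
    _ = (2 * (Real.exp K + 1)) * Real.exp (-(2 * (κ * l))) := by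
        rw [← Real.exp_add]
        congr 2
        rw [hκ]
        ring
    _ ≤ Real.exp (κ * l) * Real.exp (-(2 * (κ * l))) := by
        apply mul_le_mul_of_nonneg_right _ (Real.exp_pos _).le
        linarith [Real.add_one_le_exp (κ * l)]
    _ = Real.exp (-(κ * l)) := by
        rw [← Real.exp_add]
        congr 1
        ring

open Classical in
/-- no windows with too few hits -/
theorem few_upper (n : ℕ) (c α : ℝ) (hα0 : 0 < α) (hα : α < c) (hr : 1 < rate α c) : ∃ (A κ Λ : ℝ), 1 ≤ A ∧ 0 < κ ∧ 1 ≤ Λ ∧ ∀ (r : ℕ)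
    (W : Fin r → WeierstrassCurve (MvPolynomial (Fin n) ℤ)) (S : ℕ → (Fin r → Option ℤ) → Prop), (∀ p, p.Prime → freq W S p ≤ 1 / 2) →
    ∀ (x : ℕ) (l : ℝ) (M : Fin n → ℤ) (N : Fin n → ℕ), ex W S x = Real.exp l → Λ ≤ l → (∀ i, (x : ℝ) ^ (A * l) ≤ N i) →
      (((box M N).filter (fun v => ¬ ∀ a b : ℕ, a ≤ b → b ≤ x → c * l ≤ ex W S b - ex W S a →
        α * l < (hits W S a b v : ℝ))).card : ℝ) ≤ Real.exp (-(κ * l)) * (box M N).card := by
  have hc : 0 < c := hα0.trans hα
  obtain ⟨B, H⟩ := one_win n c α hc hα0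
  obtain ⟨κ, hκ⟩ : ∃ κ : ℝ, κ = (rate α c - 1) / 2 := ⟨_, rfl⟩
  have hκ0 : 0 < κ := by rw [hκ]; linarith
  obtain ⟨K, hK⟩ : ∃ K : ℝ, K = 3 * (1 - α / c) := ⟨_, rfl⟩
  have hac : 0 < 1 - α / c := by
    rw [sub_pos, div_lt_iff₀ hc]
    linarith
  refine ⟨B * (c + 3 + rate α c) + 1, κ, max (2 / c + 1) (2 * (Real.exp K + 1) / κ), ?_, hκ0, ?_, ?_⟩
  · have : 0 ≤ (B : ℝ) * (c + 3 + rate α c) := by positivity
    linarith
  · refine le_trans ?_ (le_max_left _ _)
    have : 0 < 2 / c := by positivity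
    linarith
  intro r W S hq x l M N hV hl hN
  have hl3 : 2 / c + 1 ≤ l := (le_max_left _ _).trans hl
  have hl1 : 1 ≤ l := by
    have : 0 < 2 / c := by positivity
    linarith
  have hcl : 2 ≤ c * l := by
    have h : 2 / c ≤ l := by linarith
    rw [div_le_iff₀ hc] at h
    linarith
  have hl2 : 2 * (Real.exp K + 1) ≤ κ * l := by
    have h := (le_max_right _ _).trans hl
    rw [div_le_iff₀ hκ0] at h
    linarith
  have hl0 : 0 < l := by linarith
  have hx := x_two W S x l hV
  have hx1 : (1 : ℝ) ≤ x := by exact_mod_cast (show 1 ≤ x by omega)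
  have hbox0 : (0 : ℝ) ≤ (box M N).card := Nat.cast_nonneg _
  obtain ⟨w, hw⟩ : ∃ w : ℕ, w = ⌊c * l⌋₊ - 1 := ⟨_, rfl⟩
  have hfl : 1 ≤ ⌊c * l⌋₊ := Nat.le_floor (by push_cast; linarith)
  have hw' : w + 1 = ⌊c * l⌋₊ := by omega
  have hw'' : (w : ℝ) + 1 = (⌊c * l⌋₊ : ℝ) := by exact_mod_cast hw'
  have hw1 : (w : ℝ) ≤ c * l - 1 := by
    have := Nat.floor_le (show 0 ≤ c * l by positivity)
    linarith
  have hw2 : c * l - 2 ≤ (w : ℝ) := by
    have := Nat.lt_floor_add_one (c * l)
    linarith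
  obtain ⟨T, hT⟩ : ∃ T : ℕ, T = ⌊Real.exp l⌋₊ := ⟨_, rfl⟩
  have hT0 : (T : ℝ) ≤ Real.exp l := by rw [hT]; exact Nat.floor_le (Real.exp_pos l).le
  have hTr : ((T + 1 : ℕ) : ℝ) ≤ 2 * Real.exp l := by
    push_cast
    linarith [Real.one_le_exp hl0.le]
  have hone : ∀ s ∈ range (T + 1), (((box M N).filter (fun v => ((s + w : ℕ) : ℝ) ≤ ex W S x ∧
      0 ≤ Real.log (α / c) * (hits W S (ge W S s) (ge W S (s + w)) v : ℝ) -
      Real.log (α / c) * (α * l))).card : ℝ) ≤ (Real.exp (K - l * rate α c) + Real.exp (-(rate α c * l))) * (box M N).card := by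
    intro s _
    refine guard_card _ _ _ _ (by positivity) fun hs => ?_
    have hs' : (s : ℝ) ≤ ex W S x := le_trans (by push_cast; linarith [Nat.cast_nonneg (α := ℝ) w]) hs
    have g1 := ge_mono W S s (s + w) x (Nat.le_add_right _ _) hs
    have g2 := ge_le W S (s + w) x hs
    have g3 := ge_ge W S (s + w) x hs
    have g4 := ge_lt W S hq (s + w)
    have g5 := ge_ge W S s x hs'
    have g6 := ge_lt W S hq s
    push_cast at g3 g4
    refine H r W S x hx l (rate α c * l) K ?_ _ _ g1 g2 ?_ M N ?_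
    · nlinarith
    · have g7 : c * l - 3 ≤ ex W S (ge W S (s + w)) - ex W S (ge W S s) := by linarith
      have h5 := mul_le_mul_of_nonneg_left g7 hac.le
      have h6 : (1 - α / c) * (c * l - 3) = -((α - c) * l + K) := by
        rw [hK]
        field_simp
        ring
      linarith
    · intro i
      refine le_trans (Real.rpow_le_rpow_of_exponent_le hx1 ?_) (hN i)
      have h5 : (ex W S (ge W S (s + w)) - ex W S (ge W S s) + rate α c * l) ≤ (c + 3 + rate α c) * l := by nlinarith
      have h6 := mul_le_mul_of_nonneg_left h5 (Nat.cast_nonneg (α := ℝ) B)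
      linarith
  have hc' := card_exists_le (box M N) (range (T + 1)) (fun v => ¬ ∀ a b : ℕ, a ≤ b → b ≤ x → c * l ≤ ex W S b - ex W S a →
        α * l < (hits W S a b v : ℝ))
    (fun s v => ((s + w : ℕ) : ℝ) ≤ ex W S x ∧ 0 ≤ Real.log (α / c) * (hits W S (ge W S s) (ge W S (s + w)) v : ℝ) -
      Real.log (α / c) * (α * l)) (by
      intro v hv
      by_contra hcon
      apply hv
      intro a b hab hbx hD
      by_contra h1
      apply hcon
      push Not at h1
      have hca : 0 ≤ ex W S a := by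
        have := ex_mono W S 0 a (Nat.zero_le a)
        rwa [ex_small W S 0 (by norm_num)] at this
      obtain ⟨s, hs⟩ : ∃ s : ℕ, s = ⌊ex W S a⌋₊ + 1 := ⟨_, rfl⟩
      have hs1 : ex W S a < s := by
        rw [hs]
        push_cast
        exact Nat.lt_floor_add_one _
      have hs2 : (s : ℝ) ≤ ex W S a + 1 := by
        rw [hs]
        push_cast
        linarith [Nat.floor_le hca]
      have hswb : ((s + w : ℕ) : ℝ) ≤ ex W S b := by
        push_cast
        linarith
      have hswx : ((s + w : ℕ) : ℝ) ≤ ex W S x := hswb.trans (ex_mono W S b x hbx)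
      have hsx : (s : ℝ) ≤ ex W S x := le_trans (by push_cast; linarith [Nat.cast_nonneg (α := ℝ) w]) hswx
      refine ⟨s, ?_, hswx, ?_⟩
      · rw [mem_range, hT]
        rw [hV] at hsx
        have := Nat.le_floor hsx
        omega
      · have hga : a ≤ ge W S s := by
          by_contra h2
          push Not at h2
          have h4 := ex_mono W S _ _ h2.le
          have h5 := ge_ge W S s x hsx
          linarith
        have hbe : ge W S (s + w) ≤ b := ge_le W S (s + w) b hswb
        have hmono : (hits W S (ge W S s) (ge W S (s + w)) v : ℝ) ≤ hits W S a b v := by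
          exact_mod_cast hits_mono W S _ _ a b hga hbe v
        have hlog : Real.log (α / c) < 0 := Real.log_neg (by positivity) (by linarith)
        have h7 : (hits W S (ge W S s) (ge W S (s + w)) v : ℝ) ≤ α * l := hmono.trans h1
        have h8 := mul_le_mul_of_nonpos_left h7 hlog.le
        linarith)
  refine hc'.trans ((sum_le_sum hone).trans ?_)
  rw [sum_const, card_range, nsmul_eq_mul, ← mul_assoc]
  apply mul_le_mul_of_nonneg_right _ hbox0
  have e1 : Real.exp (K - l * rate α c) + Real.exp (-(rate α c * l)) = (Real.exp K + 1) * Real.exp (-(rate α c * l)) := by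
    rw [add_mul, one_mul, ← Real.exp_add]
    congr 2
    ring
  rw [e1]
  calc ((T + 1 : ℕ) : ℝ) * ((Real.exp K + 1) * Real.exp (-(rate α c * l)))
      ≤ (2 * Real.exp l) * ((Real.exp K + 1) * Real.exp (-(rate α c * l))) := by gcongr
    _ = (2 * (Real.exp K + 1)) * (Real.exp l * Real.exp (-(rate α c * l))) := by ring
    _ = (2 * (Real.exp K + 1)) * Real.exp (-(2 * (κ * l))) := by
        rw [← Real.exp_add]
        congr 2
        rw [hκ]
        ring
    _ ≤ Real.exp (κ * l) * Real.exp (-(2 * (κ * l))) := by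
        apply mul_le_mul_of_nonneg_right _ (Real.exp_pos _).le
        linarith [Real.add_one_le_exp (κ * l)]
    _ = Real.exp (-(κ * l)) := by
        rw [← Real.exp_add]
        congr 1
        ring

end Pool.Agent.H46.LT
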