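import Pool.Agent.H46.LT.Clus3

/-!
# Clusters of primes with given Frobenius traces: numbers
-/

set_option autoImplicit false

namespace Pool.Agent.H46.LT

open Finset Pool.Agent.K4H16.CG

lemma pr_nonneg {ι : Type*} [DecidableEq ι] (q : ι → ℝ) (s : Finset ι) (hq0 : ∀ i ∈ s, 0 ≤ q i) (hq1 : ∀ i ∈ s, q i ≤ 1 / 2) (m : ℕ) :
    0 ≤ pr q s m := by
  unfold pr
  apply sum_nonneg
  intro A _
  apply prod_nonneg
  intro i hi
  have h1 := hq0 i hi
  have h2 := hq1 i hi
  split_ifs <;> linarith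

lemma pr_le_one {ι : Type*} [DecidableEq ι] (q : ι → ℝ) (s : Finset ι) (hq0 : ∀ i ∈ s, 0 ≤ q i) (hq1 : ∀ i ∈ s, q i ≤ 1 / 2) (m : ℕ) :
    pr q s m ≤ 1 := by
  have e1 : (1 : ℝ) = ∑ A ∈ s.powerset, ∏ i ∈ s, if i ∈ A then q i else 1 - q i := by
    have h1 : ∏ i ∈ s, (q i + (1 - q i)) = 1 := by
      apply prod_eq_one
      intro i _
      ring
    refine h1.symm.trans ?_
    rw [prod_add]
    apply sum_congr rfl
    intro A hA
    rw [mem_powerset] at hA
    rw [prod_ite, filter_mem_eq_inter, filter_notMem_eq_sdiff, inter_eq_right.2 hA]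
  rw [e1]
  unfold pr
  apply sum_le_sum_of_subset_of_nonneg
  · intro A hA
    rw [mem_powerset]
    exact (mem_powersetCard.1 hA).1
  · intro A _ _
    apply prod_nonneg
    intro i hi
    have h1 := hq0 i hi
    have h2 := hq1 i hi
    split_ifs <;> linarith

lemma rate_cont (c α : ℝ) (hc : 0 < c) (hα : 0 < α) (g : ℝ) (hg : 0 < g) : ∃ ρ : ℝ, 0 < ρ ∧ ∀ u e : ℝ, |u - α| < ρ → |e - c| < ρ →
    rate u e ≤ rate α c + g := by
  have h1 : ContinuousAt (fun z : ℝ × ℝ => z.1 * Real.log (z.1 / z.2) - z.1 + z.2) (α, c) := by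
    have h2 : ContinuousAt (fun z : ℝ × ℝ => z.1 / z.2) (α, c) := ContinuousAt.div continuousAt_fst continuousAt_snd hc.ne'
    have h3 : ContinuousAt (fun z : ℝ × ℝ => Real.log (z.1 / z.2)) (α, c) := h2.log (div_pos hα hc).ne'
    exact ((continuousAt_fst.mul h3).sub continuousAt_fst).add continuousAt_snd
  rw [Metric.continuousAt_iff] at h1
  obtain ⟨ρ, hρ, h⟩ := h1 g hg
  refine ⟨ρ, hρ, fun u e hu he => ?_⟩
  have h4 : dist ((u, e) : ℝ × ℝ) (α, c) < ρ := by
    rw [Prod.dist_eq, max_lt_iff, Real.dist_eq, Real.dist_eq]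
    exact ⟨hu, he⟩
  have h5 := h h4
  rw [Real.dist_eq] at h5
  have h6 := (abs_lt.1 h5).2
  unfold rate
  simp only at h6
  linarith

/-- the numbers -/
lemma clus_num (c α : ℝ) (hc : 0 < c) (hα : 0 < α) (g : ℝ) (hg : 0 < g) : ∃ ε τ Λ : ℝ, 0 < ε ∧ ε ≤ 1 / 2 ∧ 0 < τ ∧ 1 ≤ Λ ∧
    ∀ (l h σ : ℝ) (m : ℕ), Λ ≤ l → |h - c * l| ≤ 4 → |(m : ℝ) - α * l| ≤ 1 → 0 ≤ σ → σ ≤ τ * l →
      0 < h ∧ 1 ≤ m ∧ σ * m ≤ ε * h ^ 2 / 2 ∧
      -(l * (rate α c + 4 * g)) ≤ -h - 2 * σ + m * Real.log ((1 - ε) * h) - (m * Real.log m - m + 1 + Real.log m) := by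
  obtain ⟨ρ, hρ, hcont⟩ := rate_cont c α hc hα g hg
  obtain ⟨ε, hε⟩ : ∃ ε : ℝ, ε = min (1 / 2) (g / (2 * (α + 1))) := ⟨_, rfl⟩
  have hε0 : 0 < ε := by rw [hε]; exact lt_min (by norm_num) (by positivity)
  have hε1 : ε ≤ 1 / 2 := by rw [hε]; exact min_le_left _ _
  have hε2 : ε * (2 * (α + 1)) ≤ g := by
    have h1 : ε ≤ g / (2 * (α + 1)) := by rw [hε]; exact min_le_right _ _
    rwa [le_div_iff₀ (by positivity)] at h1
  obtain ⟨τ, hτ⟩ : ∃ τ : ℝ, τ = min (g / 2) (ε * c ^ 2 / (8 * (α + 1))) := ⟨_, rfl⟩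
  have hτ0 : 0 < τ := by rw [hτ]; exact lt_min (by positivity) (by positivity)
  have hτ1 : 2 * τ ≤ g := by
    have h1 : τ ≤ g / 2 := by rw [hτ]; exact min_le_left _ _
    linarith
  have hτ2 : τ * (8 * (α + 1)) ≤ ε * c ^ 2 := by
    have h1 : τ ≤ ε * c ^ 2 / (8 * (α + 1)) := by rw [hτ]; exact min_le_right _ _
    rwa [le_div_iff₀ (by positivity)] at h1
  obtain ⟨Λ, hΛ⟩ : ∃ Λ : ℝ, Λ = 1 + 8 / c + 2 / α + 5 / ρ + 6 * (α + 1) / g ^ 2 := ⟨_, rfl⟩
  have p1 : 0 < 8 / c := by positivity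
  have p2 : 0 < 2 / α := by positivity
  have p3 : 0 < 5 / ρ := by positivity
  have p4 : 0 < 6 * (α + 1) / g ^ 2 := by positivity
  refine ⟨ε, τ, Λ, hε0, hε1, hτ0, by rw [hΛ]; linarith, ?_⟩
  intro l h σ m hl hh hm hσ0 hσ
  rw [hΛ] at hl
  have hl1 : 1 ≤ l := by linarith
  have hl0 : 0 < l := by linarith
  have q1 : 8 ≤ c * l := by
    have : 8 / c ≤ l := by linarith
    rw [div_le_iff₀ hc] at this
    linarith
  have q2 : 2 ≤ α * l := by
    have : 2 / α ≤ l := by linarith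
    rw [div_le_iff₀ hα] at this
    linarith
  have q3 : 5 < ρ * l := by
    have : 5 / ρ < l := by linarith
    rw [div_lt_iff₀ hρ] at this
    linarith
  have q4 : 6 * (α + 1) ≤ g ^ 2 * l := by
    have : 6 * (α + 1) / g ^ 2 ≤ l := by linarith
    rw [div_le_iff₀ (by positivity)] at this
    linarith
  have hh1 := abs_le.1 hh
  have hm1 := abs_le.1 hm
  have hhl : c * l / 2 ≤ h := by linarith
  have hh0 : 0 < h := by linarith
  have hm0 : (1 : ℝ) ≤ m := by linarith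
  have hmN : 1 ≤ m := by exact_mod_cast hm0
  have hmp : (0 : ℝ) < m := by linarith
  have hmu : (m : ℝ) ≤ (α + 1) * l := by nlinarith
  refine ⟨hh0, hmN, ?_, ?_⟩
  · calc σ * m ≤ (τ * l) * ((α + 1) * l) := mul_le_mul hσ hmu hmp.le (by positivity)
      _ = (τ * (8 * (α + 1))) * l ^ 2 / 8 := by ring
      _ ≤ (ε * c ^ 2) * l ^ 2 / 8 := by
          have := mul_le_mul_of_nonneg_right hτ2 (sq_nonneg l)
          linarith
      _ = ε * (c * l / 2) ^ 2 / 2 := by ring
      _ ≤ ε * h ^ 2 / 2 := by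
          have h1 : (c * l / 2) ^ 2 ≤ h ^ 2 := pow_le_pow_left₀ (by positivity) hhl 2
          have := mul_le_mul_of_nonneg_left h1 hε0.le
          linarith
  · have h1 : rate (m / l) (h / l) ≤ rate α c + g := by
      apply hcont
      · have e : (m : ℝ) / l - α = (m - α * l) / l := by field_simp
        rw [e, abs_div, abs_of_pos hl0, div_lt_iff₀ hl0]
        linarith
      · have e : h / l - c = (h - c * l) / l := by field_simp
        rw [e, abs_div, abs_of_pos hl0, div_lt_iff₀ hl0]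
        linarith
    have h2 : l * rate (m / l) (h / l) = m * Real.log m - m * Real.log h - m + h := by
      unfold rate
      have e : (m : ℝ) / l / (h / l) = m / h := by field_simp
      rw [e, Real.log_div hmp.ne' hh0.ne']
      field_simp
    have h3 : l * rate (m / l) (h / l) ≤ l * (rate α c + g) := mul_le_mul_of_nonneg_left h1 hl0.le
    have h4 : Real.log ((1 - ε) * h) = Real.log (1 - ε) + Real.log h := Real.log_mul (by linarith) hh0.ne'
    have h5 : -(2 * ε) ≤ Real.log (1 - ε) := by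
      have h6 := Real.one_sub_inv_le_log_of_pos (show 0 < 1 - ε by linarith)
      have h7 : (1 - ε)⁻¹ ≤ 1 + 2 * ε := by
        rw [← one_div, div_le_iff₀ (by linarith)]
        nlinarith
      linarith
    have h6 : -(g * l) ≤ m * Real.log (1 - ε) := by
      have h7 : (m : ℝ) * (-(2 * ε)) ≤ m * Real.log (1 - ε) := mul_le_mul_of_nonneg_left h5 hmp.le
      have h8 : (m : ℝ) * (2 * ε) ≤ (α + 1) * l * (2 * ε) := mul_le_mul_of_nonneg_right hmu (by positivity)
      have h9 : (ε * (2 * (α + 1))) * l ≤ g * l := mul_le_mul_of_nonneg_right hε2 hl0.le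
      linarith
    have h7 : 2 * σ ≤ g * l := by
      have := mul_le_mul_of_nonneg_right hτ1 hl0.le
      linarith
    have h8 : 1 + Real.log m ≤ g * l := by
      have h9 : Real.log m ≤ g * l - 1 := by
        rw [Real.log_le_iff_le_exp hmp]
        refine hmu.trans ?_
        rw [Real.exp_sub, le_div_iff₀ (Real.exp_pos _)]
        have h10 := Real.quadratic_le_exp_of_nonneg (show 0 ≤ g * l by positivity)
        have h11 : Real.exp 1 ≤ 3 := by linarith [Real.exp_one_lt_d9]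
        have h12 : (α + 1) * l * Real.exp 1 ≤ (α + 1) * l * 3 := mul_le_mul_of_nonneg_left h11 (by positivity)
        have h13 : 6 * (α + 1) * l ≤ g ^ 2 * l * l := mul_le_mul_of_nonneg_right q4 hl0.le
        have h14 : 0 ≤ g * l := by positivity
        nlinarith
      linarith
    rw [h4]
    have h9 : (m : ℝ) * (Real.log (1 - ε) + Real.log h) = m * Real.log (1 - ε) + m * Real.log h := by ring
    rw [h9]
    rw [h2] at h3
    linarith

end Pool.Agent.H46.LT
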