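import Pool.Agent.H46.LT.Clus4

/-!
# Clusters of primes with given Frobenius traces: existence of windows with a given number of hits
-/

set_option autoImplicit false

namespace Pool.Agent.H46.LT

open Finset Pool.Agent.K4H16.CG

variable {n r : ℕ}

lemma sw_empty (x b : ℕ) : sw x b b = ∅ := by
  unfold sw
  rw [filter_eq_empty_iff]
  intro p _ h
  omega

lemma pr_empty {ι : Type*} [DecidableEq ι] (q : ι → ℝ) : pr q ∅ 0 = 1 := by
  unfold pr
  simp

open Classical in
lemma hits_empty (W : Fin r → WeierstrassCurve (MvPolynomial (Fin n) ℤ)) (S : ℕ → (Fin r → Option ℤ) → Prop) (b : ℕ) (v : Fin n → ℤ) :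
    hits W S b b v = 0 := by
  unfold hits
  rw [card_eq_zero, filter_eq_empty_iff]
  intro p hp h
  rw [mem_range] at hp
  omega

open Classical in
/-- existence of windows with a given number of hits -/
theorem exact_lower (n : ℕ) (c α : ℝ) (hc : 0 < c) (hα : 0 < α) (hr : rate α c < 1) : ∃ (A κ Λ η : ℝ), 1 ≤ A ∧ 0 < κ ∧ 1 ≤ Λ ∧ 0 < η ∧
    ∀ (r : ℕ) (W : Fin r → WeierstrassCurve (MvPolynomial (Fin n) ℤ)) (S : ℕ → (Fin r → Option ℤ) → Prop),
    (∀ p, p.Prime → freq W S p ≤ 1 / 2) →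
    ∀ (x : ℕ) (l : ℝ) (M : Fin n → ℤ) (N : Fin n → ℕ), ex W S x = Real.exp l → ex2 W S x ≤ η * Real.exp l → Λ ≤ l →
      (∀ i, (x : ℝ) ^ (A * l) ≤ N i) → ∀ w m : ℕ, |(w : ℝ) - c * l| ≤ 3 → |(m : ℝ) - α * l| ≤ 1 →
      (((box M N).filter (fun v => ¬ ∃ a b : ℕ, a ≤ b ∧ b ≤ x ∧ (w : ℝ) - 1 ≤ ex W S b - ex W S a ∧ ex W S b - ex W S a ≤ w + 1 ∧
        hits W S a b v = m)).card : ℝ) ≤ Real.exp (-(κ * l)) * (box M N).card := by
  obtain ⟨B, H⟩ := pair_prob n
  obtain ⟨g, hg⟩ : ∃ g : ℝ, g = (1 - rate α c) / 8 := ⟨_, rfl⟩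
  have hg0 : 0 < g := by rw [hg]; linarith
  have hg1 : rate α c + 4 * g = 1 - 4 * g := by rw [hg]; ring
  obtain ⟨ε, τ, Λ₀, hε, hε1, hτ, hΛ₀, hnum⟩ := clus_num c α hc hα g hg0
  obtain ⟨κ, hκ⟩ : ∃ κ : ℝ, κ = min g 1 := ⟨_, rfl⟩
  have hκ0 : 0 < κ := by rw [hκ]; exact lt_min hg0 one_pos
  have hκg : κ ≤ g := by rw [hκ]; exact min_le_left _ _
  have hκ1 : κ ≤ 1 := by rw [hκ]; exact min_le_right _ _
  obtain ⟨Λ, hΛ⟩ : ∃ Λ : ℝ, Λ = Λ₀ + 8 / c + 3 + 4 * (c + 1) + 4 * (c + 1) / g ^ 2 + 4 / κ := ⟨_, rfl⟩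
  have p1 : 0 < 8 / c := by positivity
  have p2 : 0 < 4 * (c + 1) / g ^ 2 := by positivity
  have p3 : 0 < 4 / κ := by positivity
  refine ⟨B * (2 * c + 12) + 1, κ, Λ, τ / (4 * (c + 1)), ?_, hκ0, by rw [hΛ]; linarith, by positivity, ?_⟩
  · have : 0 ≤ (B : ℝ) * (2 * c + 12) := by positivity
    linarith
  intro r W S hq x l M N hV hV2 hl hN w m hwl hml
  rw [hΛ] at hl
  have hl00 : Λ₀ ≤ l := by linarith
  have hl3 : 3 ≤ l := by linarith
  have hl0 : 0 < l := by linarith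
  have hcl : 8 ≤ c * l := by
    have h : 8 / c ≤ l := by linarith
    rw [div_le_iff₀ hc] at h
    linarith
  have hlc : 4 * (c + 1) ≤ l := by linarith
  have hlg : 4 * (c + 1) ≤ g ^ 2 * l := by
    have h : 4 * (c + 1) / g ^ 2 ≤ l := by linarith
    rw [div_le_iff₀ (by positivity)] at h
    linarith
  have hlκ : 4 ≤ κ * l := by
    have h : 4 / κ ≤ l := by linarith
    rw [div_le_iff₀ hκ0] at h
    linarith
  have hBr : (0 : ℝ) ≤ B := Nat.cast_nonneg _
  have hx := x_two W S x l hV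
  have hx1 : (1 : ℝ) ≤ x := by exact_mod_cast (show 1 ≤ x by omega)
  have hbox0 : (0 : ℝ) ≤ (box M N).card := Nat.cast_nonneg _
  have hwl1 := abs_le.1 hwl
  have hw0r : (0 : ℝ) < w := by linarith
  have hw0 : 0 < w := by exact_mod_cast hw0r
  have hwc : (w : ℝ) ≤ (c + 1) * l := by linarith
  obtain ⟨T, hT⟩ : ∃ T : ℕ, T = ⌊Real.exp l⌋₊ := ⟨_, rfl⟩
  have hT1 : (T : ℝ) ≤ Real.exp l := by rw [hT]; exact Nat.floor_le (Real.exp_pos _).le
  have hT2 : Real.exp l < T + 1 := by rw [hT]; exact Nat.lt_floor_add_one _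
  obtain ⟨J, hJ⟩ : ∃ J : ℕ, J = T / w := ⟨_, rfl⟩
  have hJ1 : J * w ≤ T := by rw [hJ]; exact Nat.div_mul_le_self T w
  have hJ2 : T < w * (J + 1) := by rw [hJ]; exact Nat.lt_mul_div_succ T hw0
  have hJT : (J : ℝ) ≤ Real.exp l := by
    have h1 : J ≤ T := by rw [hJ]; exact Nat.div_le_self T w
    have h2 : (J : ℝ) ≤ T := by exact_mod_cast h1
    linarith
  have hquad := Real.quadratic_le_exp_of_nonneg hl0.le
  have hexpc : 2 * ((c + 1) * l) ≤ Real.exp l := by nlinarith
  have hJR : Real.exp l / (2 * ((c + 1) * l)) ≤ J := by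
    have h2 : ((T + 1 : ℕ) : ℝ) ≤ ((w * (J + 1) : ℕ) : ℝ) := by exact_mod_cast hJ2
    push_cast at h2
    have h5 : (w : ℝ) * (J + 1) ≤ (c + 1) * l * (J + 1) := mul_le_mul_of_nonneg_right hwc (by positivity)
    rw [div_le_iff₀ (by positivity)]
    linarith
  have hex : ∀ k ≤ J, ((k * w : ℕ) : ℝ) ≤ ex W S x := by
    intro k hk
    rw [hV]
    refine le_trans ?_ hT1
    exact_mod_cast (Nat.mul_le_mul_right w hk).trans hJ1
  -- the windows
  obtain ⟨y, hy⟩ : ∃ y : ℕ → ℕ, y = fun k => ge W S (k * w) := ⟨_, rfl⟩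
  have hyx : ∀ k ≤ J, y k ≤ x := fun k hk => by rw [hy]; exact ge_le W S _ x (hex k hk)
  have hymono : ∀ j k : ℕ, j ≤ k → k ≤ J → y j ≤ y k := by
    intro j k hjk hk
    rw [hy]
    exact ge_mono W S _ _ x (Nat.mul_le_mul_right w hjk) (hex k hk)
  obtain ⟨h, hh⟩ : ∃ h : ℕ → ℝ, h = fun k => ex W S (y (k + 1)) - ex W S (y k) := ⟨_, rfl⟩
  have hD : ∀ k, k < J → (w : ℝ) - 1 ≤ h k ∧ h k ≤ w + 1 := by
    intro k hk
    have h1 := ge_ge W S ((k + 1) * w) x (hex (k + 1) hk)
    have h2 := ge_lt W S hq ((k + 1) * w)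
    have h3 := ge_ge W S (k * w) x (hex k hk.le)
    have h4 := ge_lt W S hq (k * w)
    push_cast at h1 h2 h3 h4
    rw [hh, hy]
    constructor
    · show (w : ℝ) - 1 ≤ ex W S (ge W S ((k + 1) * w)) - ex W S (ge W S (k * w))
      linarith
    · show ex W S (ge W S ((k + 1) * w)) - ex W S (ge W S (k * w)) ≤ w + 1
      linarith
  obtain ⟨σ, hσ⟩ : ∃ σ : ℕ → ℝ, σ = fun k => ex2 W S (y (k + 1)) - ex2 W S (y k) := ⟨_, rfl⟩
  have hσ0 : ∀ k, k < J → 0 ≤ σ k := by
    intro k hk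
    rw [hσ]
    exact sub_nonneg.2 (ex2_mono W S _ _ (hymono k (k + 1) (Nat.le_succ k) hk))
  have hσsum : ∑ k ∈ range J, σ k ≤ τ / (4 * (c + 1)) * Real.exp l := by
    have h1 : ∑ k ∈ range J, σ k = ex2 W S (y J) - ex2 W S (y 0) := by
      rw [hσ]
      exact sum_range_sub (fun k => ex2 W S (y k)) J
    have h2 := ex2_mono W S (y J) x (hyx J le_rfl)
    have h3 : 0 ≤ ex2 W S (y 0) := by
      have := ex2_mono W S 0 (y 0) (Nat.zero_le _)
      rwa [ex2_small W S 0 (by norm_num)] at this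
    linarith
  have hfq : ∀ (s : Finset (PrimesUpTo x)), (∀ i ∈ s, 0 ≤ freq W S (i : ℕ)) ∧ (∀ i ∈ s, freq W S (i : ℕ) ≤ 1 / 2) := by
    intro s
    refine ⟨fun i _ => freq_nonneg W S i, fun i _ => hq i ?_⟩
    have := i.2
    rw [mem_filter] at this
    exact this.2
  obtain ⟨X, hX⟩ : ∃ X : ℕ → (Fin n → ℤ) → Prop, X = fun k v => hits W S (y k) (y (k + 1)) v = m := ⟨_, rfl⟩
  obtain ⟨q, hqq⟩ : ∃ q : ℕ → ℝ, q = fun k => pr (fun p : PrimesUpTo x => freq W S p) (sw x (y k) (y (k + 1))) m := ⟨_, rfl⟩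
  have hpair : ∀ k j : ℕ, k < j → j < J → |(((box M N).filter (fun v => X k v ∧ X j v)).card : ℝ) - q k * q j * (box M N).card| ≤
      Real.exp (-(4 * l)) * (box M N).card := by
    intro k j hkj hj
    have hk : k < J := hkj.trans hj
    have h3 := H r W S x hx (4 * l) (by linarith) (y k) (y (k + 1)) (y j) (y (j + 1)) (hymono _ _ (Nat.le_succ k) hk)
      (hymono _ _ hkj hj.le) (hymono _ _ (Nat.le_succ j) hj) (hyx _ hj) M N (by
        intro i
        refine le_trans (Real.rpow_le_rpow_of_exponent_le hx1 ?_) (hN i)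
        have h1 := (hD k hk).2
        have h2 := (hD j hj).2
        rw [hh] at h1 h2
        simp only at h1 h2
        have h4 : (ex W S (y (k + 1)) - ex W S (y k) + (ex W S (y (j + 1)) - ex W S (y j)) + 4 * l) ≤ (2 * c + 12) * l := by nlinarith
        have h5 := mul_le_mul_of_nonneg_left h4 hBr
        linarith) m m
    have e2 : (box M N).filter (fun v => hits W S (y k) (y (k + 1)) v = m ∧ hits W S (y j) (y (j + 1)) v = m) =
        (box M N).filter (fun v => X k v ∧ X j v) := by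
      apply filter_congr
      intro v _
      rw [hX]
    rw [e2] at h3
    rw [hqq]
    exact h3
  have hsec := second (box M N) J X q (Real.exp (-(4 * l))) (Real.exp_pos _).le (by
      intro k hk
      rw [hqq]
      exact ⟨pr_nonneg _ _ (hfq _).1 (hfq _).2 m, pr_le_one _ _ (hfq _).1 (hfq _).2 m⟩) (by
      intro k hk
      have h3 := H r W S x hx (4 * l) (by linarith) (y k) (y (k + 1)) (y (k + 1)) (y (k + 1)) (hymono _ _ (Nat.le_succ k) hk)
        le_rfl le_rfl (hyx _ hk) M N (by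
          intro i
          refine le_trans (Real.rpow_le_rpow_of_exponent_le hx1 ?_) (hN i)
          have h1 := (hD k hk).2
          rw [hh] at h1
          simp only at h1
          have h4 : (ex W S (y (k + 1)) - ex W S (y k) + (ex W S (y (k + 1)) - ex W S (y (k + 1))) + 4 * l) ≤ (2 * c + 12) * l := by
            nlinarith
          have h5 := mul_le_mul_of_nonneg_left h4 hBr
          linarith) m 0
      rw [sw_empty, pr_empty, mul_one] at h3
      have e2 : (box M N).filter (fun v => hits W S (y k) (y (k + 1)) v = m ∧ hits W S (y (k + 1)) (y (k + 1)) v = 0) =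
          (box M N).filter (X k) := by
        apply filter_congr
        intro v _
        rw [hX]
        exact ⟨fun h4 => h4.1, fun h4 => ⟨h4, hits_empty W S _ v⟩⟩
      rw [e2] at h3
      rw [hqq]
      exact h3) (by
      intro k hk j hj hkj
      rcases Nat.lt_or_gt_of_ne hkj with h3 | h3
      · exact hpair k j h3 hj
      · have h4 := hpair j k h3 hk
        have e2 : (box M N).filter (fun v => X j v ∧ X k v) = (box M N).filter (fun v => X k v ∧ X j v) := by
          apply filter_congr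
          intro v _
          exact and_comm
        rw [e2, mul_comm (q j)] at h4
        exact h4) (∑ k ∈ range J, q k) rfl
  -- the mean
  obtain ⟨μ, hμ⟩ : ∃ μ : ℝ, μ = ∑ k ∈ range J, q k := ⟨_, rfl⟩
  have hgood : ∀ k ∈ range J, (1 - σ k / (τ * l)) * Real.exp (-(l * (1 - 4 * g))) ≤ q k := by
    intro k hk
    rw [mem_range] at hk
    by_cases hs : σ k ≤ τ * l
    · have h1 := hD k hk
      have h2 : |h k - c * l| ≤ 4 := by rw [abs_le]; constructor <;> linarith
      obtain ⟨n1, n2, n3, n4⟩ := hnum l (h k) (σ k) m hl00 h2 hml (hσ0 k hk) hs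
      have hyk := hymono _ _ (Nat.le_succ k) hk
      have e1 : ∑ p ∈ sw x (y k) (y (k + 1)), freq W S p = h k := by
        rw [sw_sum x _ _ hyk (hyx _ hk) (fun p => freq W S p), hh]
        rfl
      have e2 : ∑ p ∈ sw x (y k) (y (k + 1)), freq W S p ^ 2 = σ k := by
        rw [sw_sum x _ _ hyk (hyx _ hk) (fun p => freq W S p ^ 2), hσ]
        rfl
      have h3 := pr_low (fun p : PrimesUpTo x => freq W S p) (sw x (y k) (y (k + 1))) (hfq _).1 (hfq _).2 m n2 ε hε hε1
        (by rw [e1]; exact n1) (by rw [e1, e2]; exact n3)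
      rw [e1, e2] at h3
      have h4 : Real.exp (-(l * (1 - 4 * g))) ≤ q k := by
        rw [hqq]
        refine le_trans (Real.exp_le_exp.2 ?_) h3
        rw [← hg1]
        exact n4
      have h5 : (1 - σ k / (τ * l)) * Real.exp (-(l * (1 - 4 * g))) ≤ 1 * Real.exp (-(l * (1 - 4 * g))) := by
        apply mul_le_mul_of_nonneg_right _ (Real.exp_pos _).le
        have : 0 ≤ σ k / (τ * l) := div_nonneg (hσ0 k hk) (by positivity)
        linarith
      linarith
    · have h1 : 0 ≤ q k := by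
        rw [hqq]
        exact pr_nonneg _ _ (hfq _).1 (hfq _).2 m
      have h2 : 1 ≤ σ k / (τ * l) := by
        rw [le_div_iff₀ (by positivity)]
        push Not at hs
        linarith
      have h3 : (1 - σ k / (τ * l)) * Real.exp (-(l * (1 - 4 * g))) ≤ 0 :=
        mul_nonpos_of_nonpos_of_nonneg (by linarith) (Real.exp_pos _).le
      linarith
  have hμ1 : Real.exp l / (4 * ((c + 1) * l)) * Real.exp (-(l * (1 - 4 * g))) ≤ μ := by
    rw [hμ]
    refine le_trans ?_ (sum_le_sum hgood)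
    rw [← sum_mul]
    apply mul_le_mul_of_nonneg_right _ (Real.exp_pos _).le
    rw [sum_sub_distrib, ← sum_div, sum_const, card_range, nsmul_eq_mul, mul_one]
    have h1 : (∑ k ∈ range J, σ k) / (τ * l) ≤ (τ / (4 * (c + 1)) * Real.exp l) / (τ * l) :=
      div_le_div_of_nonneg_right hσsum (by positivity)
    have h2 : (τ / (4 * (c + 1)) * Real.exp l) / (τ * l) = Real.exp l / (4 * ((c + 1) * l)) := by
      field_simp
    have h3 : Real.exp l / (2 * ((c + 1) * l)) = 2 * (Real.exp l / (4 * ((c + 1) * l))) := by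
      field_simp
      ring
    rw [h2] at h1
    rw [h3] at hJR
    linarith
  have hμ2 : Real.exp (2 * g * l) ≤ μ := by
    refine le_trans ?_ hμ1
    have h1 : Real.exp l / (4 * ((c + 1) * l)) * Real.exp (-(l * (1 - 4 * g))) = Real.exp (4 * g * l) / (4 * ((c + 1) * l)) := by
      rw [div_mul_eq_mul_div, ← Real.exp_add]
      congr 2
      ring
    rw [h1, le_div_iff₀ (by positivity)]
    have h2 : Real.exp (4 * g * l) = Real.exp (2 * g * l) * Real.exp (2 * g * l) := by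
      rw [← Real.exp_add]
      congr 1
      ring
    rw [h2]
    apply mul_le_mul_of_nonneg_left _ (Real.exp_pos _).le
    have h3 := Real.quadratic_le_exp_of_nonneg (show 0 ≤ 2 * g * l by positivity)
    have h4 : 4 * (c + 1) * l ≤ g ^ 2 * l * l := mul_le_mul_of_nonneg_right hlg hl0.le
    have h5 : 0 ≤ g * l := by positivity
    nlinarith
  have hμ1' : 1 ≤ μ := le_trans (Real.one_le_exp (by positivity)) hμ2
  have hμ0 : 0 < μ := by linarith
  have hfin := hsec (by rw [← hμ]; exact hμ0)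
  rw [← hμ] at hfin
  have hsub : ((box M N).filter (fun v => ¬ ∃ a b : ℕ, a ≤ b ∧ b ≤ x ∧ (w : ℝ) - 1 ≤ ex W S b - ex W S a ∧
        ex W S b - ex W S a ≤ w + 1 ∧ hits W S a b v = m)) ⊆ (box M N).filter (fun v => ∀ k < J, ¬ X k v) := by
    intro v hv
    rw [mem_filter] at hv ⊢
    refine ⟨hv.1, fun k hk hXk => hv.2 ⟨y k, y (k + 1), hymono k (k + 1) (Nat.le_succ k) hk, hyx (k + 1) hk, ?_, ?_, ?_⟩⟩
    · have h1 := (hD k hk).1
      rw [hh] at h1
      exact h1
    · have h1 := (hD k hk).2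
      rw [hh] at h1
      exact h1
    · rw [hX] at hXk
      exact hXk
  have hsub' : (((box M N).filter (fun v => ¬ ∃ a b : ℕ, a ≤ b ∧ b ≤ x ∧ (w : ℝ) - 1 ≤ ex W S b - ex W S a ∧
        ex W S b - ex W S a ≤ w + 1 ∧ hits W S a b v = m)).card : ℝ) ≤ (((box M N).filter (fun v => ∀ k < J, ¬ X k v)).card : ℝ) := by
    exact_mod_cast card_le_card hsub
  refine hsub'.trans (hfin.trans ?_)
  apply mul_le_mul_of_nonneg_right _ hbox0
  have t1 : 1 / μ ≤ Real.exp (-(2 * (κ * l))) := by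
    rw [Real.exp_neg, ← one_div]
    apply one_div_le_one_div_of_le (Real.exp_pos _)
    refine le_trans (Real.exp_le_exp.2 ?_) hμ2
    have := mul_le_mul_of_nonneg_right hκg hl0.le
    linarith
  have t2 : 3 * (J : ℝ) ^ 2 * Real.exp (-(4 * l)) / μ ^ 2 ≤ 3 * Real.exp (-(2 * (κ * l))) := by
    rw [div_le_iff₀ (by positivity)]
    have h1 : (J : ℝ) ^ 2 ≤ Real.exp l ^ 2 := pow_le_pow_left₀ (Nat.cast_nonneg _) hJT 2
    have h2 : Real.exp l ^ 2 * Real.exp (-(4 * l)) = Real.exp (-(2 * l)) := by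
      rw [← Real.exp_nat_mul, ← Real.exp_add]
      congr 1
      push_cast
      ring
    have h3 : (J : ℝ) ^ 2 * Real.exp (-(4 * l)) ≤ Real.exp (-(2 * l)) := by
      rw [← h2]
      exact mul_le_mul_of_nonneg_right h1 (Real.exp_pos _).le
    have h4 : 1 ≤ μ ^ 2 := one_le_pow₀ hμ1'
    have h6 : Real.exp (-(2 * l)) ≤ Real.exp (-(2 * (κ * l))) := by
      apply Real.exp_le_exp.2
      have := mul_le_mul_of_nonneg_right hκ1 hl0.le
      linarith
    have h5 : 3 * Real.exp (-(2 * (κ * l))) * 1 ≤ 3 * Real.exp (-(2 * (κ * l))) * μ ^ 2 := mul_le_mul_of_nonneg_left h4 (by positivity)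
    linarith
  have t3 : 4 * Real.exp (-(2 * (κ * l))) ≤ Real.exp (-(κ * l)) := by
    have h1 : Real.exp (-(κ * l)) = Real.exp (κ * l) * Real.exp (-(2 * (κ * l))) := by
      rw [← Real.exp_add]
      congr 1
      ring
    rw [h1]
    apply mul_le_mul_of_nonneg_right _ (Real.exp_pos _).le
    linarith [Real.add_one_le_exp (κ * l)]
  linarith

end Pool.Agent.H46.LT
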