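import Pool.Graph.R_pool_sql_team_seeded_c8625f6e.K4H16.CG.IL9
import Pool.Graph.R_pool_sql_team_seeded_c8625f6e.K4H16.CG.IL5

/-!
# Increments of Lang–Trotter counts: the exceptional sets
-/

set_option autoImplicit false

namespace Pool.Agent.H46.LT

open Finset Pool.Agent.K4H16.CG

variable {r : ℕ}

open Classical in
/-- the sharp bound for one window -/
theorem sharp (n : ℕ) (δ ρ : ℝ) (hδ : 0 < δ) (hδ1 : δ ≤ 1) (hρ : 0 < ρ) : ∃ (A : ℕ) (B Λ : ℝ), 0 < B ∧ ∀ (r : ℕ)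
    (W : Fin r → WeierstrassCurve (MvPolynomial (Fin n) ℤ)) (φ : ℕ → (Fin r → Option ℤ) → ℝ), (∀ p d, |φ p d| ≤ 1) →
    ∀ (x a b : ℕ) (l m : ℝ) (M : Fin n → ℤ) (N : Fin n → ℕ), a ≤ b → b ≤ x → 1 ≤ x → Λ ≤ l → B * l ≤ m →
      ρ * m ≤ cov W φ φ b - cov W φ φ a → cov W φ φ b - cov W φ φ a ≤ m + 1 → (∀ i, (x : ℝ) ^ ((A : ℝ) * l) ≤ N i) →
      (((box M N).filter (fun v => (1 + δ) * √(2 * m * l) ≤ |err W φ b v - err W φ a v|)).card : ℝ) ≤
        2 * Real.exp (-((1 + δ / 2) * l)) * (box M N).card := by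
  obtain ⟨A, η, Λ, hη, hΛ, H⟩ := family_md n (δ / 4) (by positivity) (by linarith)
  refine ⟨4 * A, 4 / (η * ρ) + 1 / δ, Λ ^ 2, by positivity, ?_⟩
  intro r W φ hφ x a b l m M N hab hbx hx hl hm hD1 hD2 hN
  have hl1 : 1 ≤ l := le_trans (by nlinarith) hl
  have hl0 : 0 < l := by linarith
  obtain ⟨D, hD⟩ : ∃ D : ℝ, D = cov W φ φ b - cov W φ φ a := ⟨_, rfl⟩
  rw [← hD] at hD1 hD2
  have hm1 : 4 / (η * ρ) * l ≤ m := by
    have : 0 ≤ 1 / δ * l := by positivity
    nlinarith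
  have hm2 : 1 ≤ δ * m := by
    have h1 : 1 / δ ≤ m := by
      have h2 : 0 ≤ 4 / (η * ρ) * l := by positivity
      have h3 : 1 / δ * 1 ≤ 1 / δ * l := mul_le_mul_of_nonneg_left hl1 (by positivity)
      nlinarith
    rw [div_le_iff₀ hδ] at h1
    linarith
  have hm0 : 0 < m := by
    by_contra hcon
    push Not at hcon
    nlinarith
  have hD0 : 0 < D := lt_of_lt_of_le (by positivity) hD1
  obtain ⟨lam, hlam⟩ : ∃ lam : ℝ, lam = √(2 * (1 + δ) * l) := ⟨_, rfl⟩
  have hlam2 : lam ^ 2 = 2 * (1 + δ) * l := by rw [hlam, Real.sq_sqrt (by positivity)]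
  have hlam0 : 0 ≤ lam := by rw [hlam]; exact Real.sqrt_nonneg _
  have hΛlam : Λ ≤ lam := by
    rw [hlam]
    apply Real.le_sqrt_of_sq_le
    nlinarith
  have hlη : lam ^ 2 ≤ η * D := by
    rw [hlam2]
    have h1 : 4 * l ≤ η * (ρ * m) := by
      rw [div_mul_eq_mul_div, div_le_iff₀ (by positivity)] at hm1
      linarith
    have h2 : η * (ρ * m) ≤ η * D := mul_le_mul_of_nonneg_left hD1 hη.le
    nlinarith
  have hroot : lam * √D ≤ (1 + δ) * √(2 * m * l) := by
    have h1 : lam * √D = √(2 * (1 + δ) * l * D) := by rw [hlam, ← Real.sqrt_mul (by positivity)]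
    have h2 : √((1 + δ) ^ 2 * (2 * m * l)) = (1 + δ) * √(2 * m * l) := by
      rw [Real.sqrt_mul (sq_nonneg (1 + δ)), Real.sqrt_sq (by positivity)]
    rw [h1, ← h2]
    apply Real.sqrt_le_sqrt
    have h3 : D ≤ (1 + δ) * m := by linarith
    calc 2 * (1 + δ) * l * D ≤ 2 * (1 + δ) * l * ((1 + δ) * m) := mul_le_mul_of_nonneg_left h3 (by positivity)
      _ = _ := by ring
  have hx1 : (1 : ℝ) ≤ x := by exact_mod_cast hx
  have key : ∀ σ : ℝ, (σ = 1 ∨ σ = -1) → (((box M N).filter (fun v => (1 + δ) * √(2 * m * l) ≤ σ * (err W φ b v - err W φ a v))).card : ℝ) ≤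
      Real.exp (-((1 + δ / 2) * l)) * (box M N).card := by
    intro σ hσ
    have hσ1 : |σ| = 1 := by rcases hσ with h | h <;> rw [h] <;> norm_num
    have hσ2 : σ * σ = 1 := by rcases hσ with h | h <;> rw [h] <;> norm_num
    have hcov : cov W (wφ φ σ a b) (wφ φ σ a b) x = D := by rw [cov_wφ W φ σ hσ2 a b x hab hbx, hD]
    have h3 := (H r W (wφ φ σ a b) (fun p d => wφ_abs φ hφ σ hσ1 a b p d) x lam hΛlam (by rw [hcov]; exact hlη) M N (by
      intro i
      refine le_trans ?_ (hN i)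
      apply Real.rpow_le_rpow_of_exponent_le hx1
      rw [hlam2]
      push_cast
      have : 0 ≤ (A : ℝ) * l := by positivity
      nlinarith)).2
    rw [hcov] at h3
    have h4 : ((box M N).filter (fun v => (1 + δ) * √(2 * m * l) ≤ σ * (err W φ b v - err W φ a v))) ⊆
        (box M N).filter (fun v => mean W (wφ φ σ a b) x + lam * √D ≤ total W (wφ φ σ a b) x v) := by
      intro v hv
      rw [mem_filter] at hv ⊢
      refine ⟨hv.1, ?_⟩
      have h5 := err_win W φ σ a b x hab hbx v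
      linarith [hv.2]
    have h5 : (((box M N).filter (fun v => (1 + δ) * √(2 * m * l) ≤ σ * (err W φ b v - err W φ a v))).card : ℝ) ≤
        (((box M N).filter (fun v => mean W (wφ φ σ a b) x + lam * √D ≤ total W (wφ φ σ a b) x v)).card : ℝ) := by
      exact_mod_cast card_le_card h4
    refine h5.trans (h3.trans ?_)
    apply mul_le_mul_of_nonneg_right _ (Nat.cast_nonneg _)
    apply Real.exp_le_exp.2
    rw [hlam2]
    have h6 : (1 + δ / 2) * l ≤ (1 - δ / 4) * (1 + δ) * l := by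
      apply mul_le_mul_of_nonneg_right _ hl0.le
      nlinarith
    linarith
  have h5 : (box M N).filter (fun v => (1 + δ) * √(2 * m * l) ≤ |err W φ b v - err W φ a v|) ⊆
      ((box M N).filter (fun v => (1 + δ) * √(2 * m * l) ≤ 1 * (err W φ b v - err W φ a v))) ∪
      ((box M N).filter (fun v => (1 + δ) * √(2 * m * l) ≤ (-1) * (err W φ b v - err W φ a v))) := by
    intro v hv
    rw [mem_filter] at hv
    rw [mem_union, mem_filter, mem_filter]
    obtain ⟨hv1, hv3⟩ := hv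
    rcases le_abs.1 hv3 with h | h
    · exact Or.inl ⟨hv1, by linarith⟩
    · exact Or.inr ⟨hv1, by linarith⟩
  have h6 := (card_le_card h5).trans (card_union_le _ _)
  have h7 : (((box M N).filter (fun v => (1 + δ) * √(2 * m * l) ≤ |err W φ b v - err W φ a v|)).card : ℝ) ≤
      (((box M N).filter (fun v => (1 + δ) * √(2 * m * l) ≤ 1 * (err W φ b v - err W φ a v))).card : ℝ) +
      (((box M N).filter (fun v => (1 + δ) * √(2 * m * l) ≤ (-1) * (err W φ b v - err W φ a v))).card : ℝ) := by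
    exact_mod_cast h6
  have h8 := key 1 (Or.inl rfl)
  have h9 := key (-1) (Or.inr rfl)
  linarith

open Classical in
/-- a rough bound for one window -/
theorem rough (n : ℕ) : ∃ A : ℕ, ∀ (r : ℕ) (W : Fin r → WeierstrassCurve (MvPolynomial (Fin n) ℤ)) (φ : ℕ → (Fin r → Option ℤ) → ℝ),
    (∀ p a, |φ p a| ≤ 1) → ∀ (x a b k : ℕ) (M : Fin n → ℤ) (N : Fin n → ℕ), a ≤ b → b ≤ x → 1 ≤ x → 1 ≤ k → (∀ i, x ^ (A * k) ≤ N i) →
      ∀ w T : ℝ, 0 < w → w ≤ 1 → 0 < T → w ^ 2 * (cov W φ φ b - cov W φ φ a) ≤ 4 * k → 4 * k * Real.exp 1 ≤ w * T →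
      (((box M N).filter (fun v => T ≤ |err W φ b v - err W φ a v|)).card : ℝ) ≤ 3 * Real.exp (-k) * (box M N).card := by
  obtain ⟨A, H⟩ := fam_tail n
  refine ⟨A, ?_⟩
  intro r W φ hφ x a b k M N hab hbx hx hk hN w T hw0 hw hT hD hwT
  have h3 := H r W (wφ φ 1 a b) (fun p d => wφ_abs φ hφ 1 (by norm_num) _ _ p d) x k M N hx hk hN w T hw0 hw hT
  have e : (box M N).filter (fun v => T ≤ |total W (wφ φ 1 a b) x v - mean W (wφ φ 1 a b) x|) =
      (box M N).filter (fun v => T ≤ |err W φ b v - err W φ a v|) := by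
    apply filter_congr
    intro v _
    rw [err_win W φ 1 _ _ x hab hbx, one_mul]
  rw [e, cov_wφ W φ 1 (by norm_num) _ _ _ hab hbx] at h3
  refine h3.trans ?_
  apply mul_le_mul_of_nonneg_right _ (Nat.cast_nonneg _)
  have hkr : (1 : ℝ) ≤ k := by exact_mod_cast hk
  have h4 : Real.exp (w ^ 2 * ((cov W φ φ b - cov W φ φ a) / 4)) ≤ Real.exp k := by
    apply Real.exp_le_exp.2
    linarith
  have h5 : ((2 * k).factorial : ℝ) ≤ (2 * (k : ℝ)) ^ (2 * k) := by
    have := Nat.factorial_le_pow (2 * k)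
    calc ((2 * k).factorial : ℝ) ≤ (((2 * k) ^ (2 * k) : ℕ) : ℝ) := by exact_mod_cast this
      _ = _ := by push_cast; ring
  have hwT0 : 0 < w * T := by positivity
  have h6 : (2 * (k : ℝ)) ^ (2 * k) * (2 / (w * T)) ^ (2 * k) ≤ Real.exp (-1) ^ (2 * k) := by
    rw [← mul_pow]
    apply pow_le_pow_left₀ (by positivity)
    rw [mul_div_assoc', div_le_iff₀ hwT0]
    have e1 : Real.exp (-1) * (4 * k * Real.exp 1) = 4 * k := by
      have : Real.exp (-1) * Real.exp 1 = 1 := by rw [← Real.exp_add]; norm_num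
      linear_combination 4 * (k : ℝ) * this
    have h7 : Real.exp (-1) * (4 * k * Real.exp 1) ≤ Real.exp (-1) * (w * T) := mul_le_mul_of_nonneg_left hwT (Real.exp_pos _).le
    linarith
  have e2 : Real.exp (-1) ^ (2 * k) = Real.exp (-(2 * k)) := by
    rw [← Real.exp_nat_mul]
    congr 1
    push_cast
    ring
  rw [e2] at h6
  calc 3 * ((2 * k).factorial : ℝ) * (2 / (w * T)) ^ (2 * k) * Real.exp (w ^ 2 * ((cov W φ φ b - cov W φ φ a) / 4))
      ≤ 3 * (2 * (k : ℝ)) ^ (2 * k) * (2 / (w * T)) ^ (2 * k) * Real.exp k := by gcongr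
    _ = 3 * ((2 * (k : ℝ)) ^ (2 * k) * (2 / (w * T)) ^ (2 * k)) * Real.exp k := by ring
    _ ≤ 3 * Real.exp (-(2 * k)) * Real.exp k := by gcongr
    _ = 3 * Real.exp (-k) := by
        have : Real.exp (-(2 * k)) * Real.exp k = Real.exp (-(k : ℝ)) := by
          rw [← Real.exp_add]
          congr 1
          ring
        rw [mul_assoc, this]

end Pool.Agent.H46.LT
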