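import Pool.Agent.H46.LT.Ev

/-!
# Increments of Lang–Trotter counts: the upper half
-/

set_option autoImplicit false

namespace Pool.Agent.H46.LT

open Finset Pool.Agent.K4H16.CG

variable {n r : ℕ}

lemma cov_nonneg (W : Fin r → WeierstrassCurve (MvPolynomial (Fin n) ℤ)) (φ : ℕ → (Fin r → Option ℤ) → ℝ) (a : ℕ) : 0 ≤ cov W φ φ a := by
  have := cov_mono W φ 0 a (Nat.zero_le a)
  rwa [cov_zero] at this

/-- the deterministic part -/
lemma det (W : Fin r → WeierstrassCurve (MvPolynomial (Fin n) ℤ)) (φ : ℕ → (Fin r → Option ℤ) → ℝ) (h01 : ∀ p d, φ p d = 0 ∨ φ p d = 1)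
    (x m : ℕ) (v : Fin n → ℤ) (T₀ T₁ : ℝ)
    (h1 : ∀ s : ℕ, (s : ℝ) ≤ cov W φ φ x → |err W (rare W φ) (lastH W φ x s) v - err W (rare W φ) (gr W φ s) v| ≤ T₀)
    (h2 : ∀ s j : ℕ, j ≤ m → ((s + j : ℕ) : ℝ) ≤ cov W φ φ x → |err W φ (gr W φ (s + j)) v - err W φ (gr W φ s) v| ≤ T₁)
    (a b : ℕ) (hab : a ≤ b) (hbx : b ≤ x) (hm : cov W φ φ b - cov W φ φ a ≤ m) :
    |err W φ b v - err W φ a v| ≤ T₁ + 2 * T₀ + 8 := by
  have hax : a ≤ x := hab.trans hbx
  have pt : ∀ y : ℕ, y ≤ x → |err W φ y v - err W φ (gr W φ ⌊cov W φ φ y⌋₊) v| ≤ T₀ + 4 := by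
    intro y hy
    have hs := Nat.floor_le (cov_nonneg W φ y)
    have hs2 := Nat.lt_floor_add_one (cov W φ φ y)
    have hyx := cov_mono W φ y x hy
    have h3 := cell W φ h01 (gr W φ ⌊cov W φ φ y⌋₊) y (lastH W φ x ⌊cov W φ φ y⌋₊) (gr_le W φ _ y hs) (le_lastH W φ x _ y hy hs2) v
    have h4 := h1 ⌊cov W φ φ y⌋₊ (hs.trans hyx)
    have h5 := lastH_lt W φ x ⌊cov W φ φ y⌋₊
    have h6 := gr_ge W φ ⌊cov W φ φ y⌋₊ ⟨y, hs⟩
    linarith
  have ha := pt a hax
  have hb := pt b hbx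
  obtain ⟨s, hs⟩ : ∃ s : ℕ, s = ⌊cov W φ φ a⌋₊ := ⟨_, rfl⟩
  obtain ⟨t, ht⟩ : ∃ t : ℕ, t = ⌊cov W φ φ b⌋₊ := ⟨_, rfl⟩
  have hst : s ≤ t := by rw [hs, ht]; exact Nat.floor_le_floor (cov_mono W φ a b hab)
  have hs2 := Nat.lt_floor_add_one (cov W φ φ a)
  have ht1 := Nat.floor_le (cov_nonneg W φ b)
  rw [← hs] at hs2 ha
  rw [← ht] at ht1 hb
  have htm : t ≤ s + m := by
    have h3 : (t : ℝ) < (s : ℝ) + m + 1 := by linarith
    have h4 : t < s + m + 1 := by exact_mod_cast h3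
    omega
  have h5 := h2 s (t - s) (by omega) (by
    rw [Nat.add_sub_cancel' hst]
    exact ht1.trans (cov_mono W φ b x hbx))
  rw [Nat.add_sub_cancel' hst] at h5
  have h6 : err W φ b v - err W φ a v = (err W φ b v - err W φ (gr W φ t) v) + (err W φ (gr W φ t) v - err W φ (gr W φ s) v) -
      (err W φ a v - err W φ (gr W φ s) v) := by ring
  rw [h6]
  refine (abs_sub _ _).trans ?_
  have h7 := abs_add_le (err W φ b v - err W φ (gr W φ t) v) (err W φ (gr W φ t) v - err W φ (gr W φ s) v)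
  linarith

lemma guard_card {α : Type*} (s : Finset α) (G : Prop) (P : α → Prop) (c : ℝ) [DecidablePred P] [DecidablePred (fun v => G ∧ P v)]
    (hc : 0 ≤ c) (h : G → ((s.filter P).card : ℝ) ≤ c) : ((s.filter (fun v => G ∧ P v)).card : ℝ) ≤ c := by
  by_cases hG : G
  · refine le_trans ?_ (h hG)
    have : s.filter (fun v => G ∧ P v) ⊆ s.filter P := by
      intro v hv
      rw [mem_filter] at hv ⊢
      exact ⟨hv.1, hv.2.2⟩
    exact_mod_cast card_le_card this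
  · have : s.filter (fun v => G ∧ P v) = ∅ := by
      rw [filter_eq_empty_iff]
      intro v _ h2
      exact hG h2.1
    rw [this]
    simpa using hc

lemma or_card {α : Type*} [DecidableEq α] (s : Finset α) (Q P R : α → Prop) [DecidablePred Q] [DecidablePred P] [DecidablePred R]
    (h : ∀ v, Q v → P v ∨ R v) : ((s.filter Q).card : ℝ) ≤ ((s.filter P).card : ℝ) + ((s.filter R).card : ℝ) := by
  have h5 : s.filter Q ⊆ s.filter P ∪ s.filter R := by
    intro v hv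
    rw [mem_filter] at hv
    rw [mem_union, mem_filter, mem_filter]
    rcases h v hv.2 with h1 | h1
    · exact Or.inl ⟨hv.1, h1⟩
    · exact Or.inr ⟨hv.1, h1⟩
  have h6 := (card_le_card h5).trans (card_union_le _ _)
  exact_mod_cast h6

lemma exp_four : (46 : ℝ) ≤ Real.exp 4 := by
  have e1 : Real.exp 4 = Real.exp 1 ^ 4 := by rw [← Real.exp_nat_mul]; norm_num
  have h6 := Real.exp_one_gt_d9
  rw [e1]
  have h7 : (2.7 : ℝ) ^ 4 ≤ Real.exp 1 ^ 4 := pow_le_pow_left₀ (by norm_num) (by linarith) 4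
  refine le_trans ?_ h7
  norm_num

open Classical in
/-- the upper half -/
theorem upper (n : ℕ) (δ : ℝ) (hδ : 0 < δ) (hδ1 : δ ≤ 1) : ∃ (A Λ : ℝ), 1 ≤ A ∧ 1 ≤ Λ ∧ ∀ (r : ℕ)
    (W : Fin r → WeierstrassCurve (MvPolynomial (Fin n) ℤ)) (φ : ℕ → (Fin r → Option ℤ) → ℝ), (∀ p d, φ p d = 0 ∨ φ p d = 1) →
    ∀ (x : ℕ) (l : ℝ) (M : Fin n → ℤ) (N : Fin n → ℕ), cov W φ φ x = Real.exp l → Λ ≤ l → (∀ i, (x : ℝ) ^ (A * l) ≤ N i) →
      (((box M N).filter (fun v => ¬ ∀ m : ℕ, A * l ≤ m → (m : ℝ) ≤ Real.exp (δ / 64 * l) → ∀ a b : ℕ, a ≤ b → b ≤ x →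
        cov W φ φ b - cov W φ φ a ≤ m → |err W φ b v - err W φ a v| ≤ (1 + δ) * √(2 * m * l))).card : ℝ) ≤
        Real.exp (-(δ / 64 * l)) * (box M N).card := by
  obtain ⟨A₁, B, Λ₁, hB, H₁⟩ := sharp n (δ / 2) (1 / 64) (by positivity) (by linarith) (by norm_num)
  obtain ⟨A₂, H₂⟩ := rough n
  have hδ2 : 1 ≤ 1 / δ ^ 2 := by
    rw [le_div_iff₀ (by positivity)]
    nlinarith
  have hδi : 1 ≤ 1 / δ := by
    rw [le_div_iff₀ hδ]
    linarith
  refine ⟨A₁ + 4 * A₂ + B + 20000 * (1 / δ ^ 2), |Λ₁| + 64 * (1 / δ), by nlinarith [Nat.cast_nonneg (α := ℝ) A₁, Nat.cast_nonneg (α := ℝ) A₂],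
    by linarith [abs_nonneg Λ₁], ?_⟩
  intro r W φ h01 x l M N hV hl hN
  obtain ⟨A, hA⟩ : ∃ A : ℝ, A = A₁ + 4 * A₂ + B + 20000 * (1 / δ ^ 2) := ⟨_, rfl⟩
  rw [← hA] at hN ⊢
  have hA1r : (0 : ℝ) ≤ A₁ := Nat.cast_nonneg _
  have hA2r : (0 : ℝ) ≤ A₂ := Nat.cast_nonneg _
  have hA₁ : (A₁ : ℝ) ≤ A := by rw [hA]; linarith
  have hA₂ : 4 * (A₂ : ℝ) ≤ A := by rw [hA]; linarith
  have hAB : B ≤ A := by rw [hA]; linarith
  have hAδ : 20000 * (1 / δ ^ 2) ≤ A := by rw [hA]; linarith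
  have hA2k : 20000 ≤ A := by linarith
  have hΛl : Λ₁ ≤ l := by linarith [le_abs_self Λ₁]
  have hl64 : 64 * (1 / δ) ≤ l := by linarith [abs_nonneg Λ₁]
  have hl1 : 1 ≤ l := by linarith
  have hl0 : 0 < l := by linarith
  have hlδ : 64 ≤ δ * l := by
    have : δ * (64 * (1 / δ)) ≤ δ * l := mul_le_mul_of_nonneg_left hl64 hδ.le
    have e : δ * (64 * (1 / δ)) = 64 := by field_simp
    linarith
  have hφ : ∀ p d, |φ p d| ≤ 1 := by
    intro p d
    rcases h01 p d with h | h <;> rw [h] <;> norm_num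
  have hx : 1 ≤ x := by
    by_contra hcon
    have h0 : x = 0 := by omega
    rw [h0, cov_zero] at hV
    exact (Real.exp_pos l).ne hV
  have hx1 : (1 : ℝ) ≤ x := by exact_mod_cast hx
  have hbox0 : (0 : ℝ) ≤ (box M N).card := Nat.cast_nonneg _
  -- the order of the moments
  obtain ⟨k, hk⟩ : ∃ k : ℕ, k = ⌈3 * l⌉₊ := ⟨_, rfl⟩
  have hk1 : 3 * l ≤ k := by rw [hk]; exact Nat.le_ceil _
  have hk2 : (k : ℝ) ≤ 4 * l := by
    rw [hk]
    have := Nat.ceil_lt_add_one (show 0 ≤ 3 * l by positivity)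
    linarith
  have hk0 : 1 ≤ k := by
    have : (1 : ℝ) ≤ k := by linarith
    exact_mod_cast this
  have hkr : (0 : ℝ) < k := by exact_mod_cast hk0
  have hNk : ∀ i, x ^ (A₂ * k) ≤ N i := by
    intro i
    have h1 : (x : ℝ) ^ (A₂ * k) ≤ N i := by
      refine le_trans ?_ (hN i)
      rw [← Real.rpow_natCast]
      apply Real.rpow_le_rpow_of_exponent_le hx1
      push_cast
      have h2 : (A₂ : ℝ) * k ≤ A₂ * (4 * l) := mul_le_mul_of_nonneg_left hk2 hA2r
      have h3 : 4 * (A₂ : ℝ) * l ≤ A * l := mul_le_mul_of_nonneg_right hA₂ hl0.le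
      linarith
    exact_mod_cast h1
  have hN1 : ∀ i, (x : ℝ) ^ ((A₁ : ℝ) * l) ≤ N i := by
    intro i
    refine le_trans (Real.rpow_le_rpow_of_exponent_le hx1 ?_) (hN i)
    exact mul_le_mul_of_nonneg_right hA₁ hl0.le
  have he2 : Real.exp 1 ^ 2 ≤ 8 := by
    have := Real.exp_one_lt_d9
    have h0 := (Real.exp_pos 1).le
    nlinarith
  have he1 : Real.exp 1 ≤ 11 / 4 := by
    have := Real.exp_one_lt_d9
    linarith
  have hek : Real.exp (-(k : ℝ)) ≤ Real.exp (-(3 * l)) := Real.exp_le_exp.2 (by linarith)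
  -- the two kinds of events
  obtain ⟨G, hG⟩ : ∃ G : ℝ, G = Real.exp (δ / 64 * l) := ⟨_, rfl⟩
  obtain ⟨T, hT⟩ : ∃ T : ℕ, T = ⌊Real.exp l⌋₊ := ⟨_, rfl⟩
  obtain ⟨U, hU⟩ : ∃ U : ℕ, U = ⌊G⌋₊ := ⟨_, rfl⟩
  have hE1 : ∀ s : ℕ, (((box M N).filter (fun v => ((s : ℝ) ≤ cov W φ φ x) ∧
      44 * l ≤ |err W (rare W φ) (lastH W φ x s) v - err W (rare W φ) (gr W φ s) v|)).card : ℝ) ≤ 3 * Real.exp (-(3 * l)) * (box M N).card := by
    intro s
    refine guard_card _ _ _ _ (by positivity) fun hs => ?_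
    have hgs := gr_le W φ s x hs
    have hge := gr_ge W φ s ⟨x, hs⟩
    have hlt := gr_lt W φ hφ s ⟨x, hs⟩
    have hgl : gr W φ s ≤ lastH W φ x s := le_lastH W φ x s _ hgs hlt
    have hll := lastH_lt W φ x s
    have h3 := H₂ r W (rare W φ) (rare_abs W φ h01) x (gr W φ s) (lastH W φ x s) k M N hgl (lastH_le W φ x s) hx hk0 hNk 1 (44 * l)
      one_pos le_rfl (by positivity) (by
        rw [cov_rare W φ h01, cov_rare W φ h01]
        linarith) (by
        rw [one_mul]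
        calc 4 * (k : ℝ) * Real.exp 1 ≤ 4 * (4 * l) * (11 / 4) := by gcongr
          _ = 44 * l := by ring)
    refine h3.trans ?_
    gcongr
  have hE2 : ∀ s j m : ℕ, (((box M N).filter (fun v => (((s + j : ℕ) : ℝ) ≤ cov W φ φ x ∧ j ≤ m ∧ A * l ≤ m) ∧
      (1 + δ / 2) * √(2 * m * l) ≤ |err W φ (gr W φ (s + j)) v - err W φ (gr W φ s) v|)).card : ℝ) ≤
      5 * Real.exp (-((1 + δ / 4) * l)) * (box M N).card := by
    intro s j m
    refine guard_card _ _ _ _ (by positivity) fun hs => ?_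
    obtain ⟨hs, hjm, hAm⟩ := hs
    have hs' : (s : ℝ) ≤ cov W φ φ x := le_trans (by push_cast; linarith [Nat.cast_nonneg (α := ℝ) j]) hs
    have hgb := gr_le W φ (s + j) x hs
    have hgeb := gr_ge W φ (s + j) ⟨x, hs⟩
    have hltb := gr_lt W φ hφ (s + j) ⟨x, hs⟩
    have hgea := gr_ge W φ s ⟨x, hs'⟩
    have hgab := gr_mono W φ s (s + j) (Nat.le_add_right _ _) ⟨x, hs⟩
    have hjr : (j : ℝ) ≤ m := by exact_mod_cast hjm
    have hm0 : (0 : ℝ) < m := lt_of_lt_of_le (by positivity) hAm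
    have hm20 : 20000 * l ≤ m := le_trans (mul_le_mul_of_nonneg_right hA2k hl0.le) hAm
    push_cast at hgeb hltb
    by_cases hD : 1 / 64 * (m : ℝ) ≤ cov W φ φ (gr W φ (s + j)) - cov W φ φ (gr W φ s)
    · have h3 := H₁ r W φ hφ x (gr W φ s) (gr W φ (s + j)) l m M N hgab hgb hx hΛl
        (le_trans (mul_le_mul_of_nonneg_right hAB hl0.le) hAm) hD (by linarith) hN1
      have e : 1 + δ / 2 / 2 = 1 + δ / 4 := by ring
      rw [e] at h3
      refine h3.trans ?_
      gcongr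
      norm_num
    · push Not at hD
      have hw2 : 256 * (k : ℝ) / m ≤ 1 := by
        rw [div_le_one hm0]
        linarith
      have h3 := H₂ r W φ hφ x (gr W φ s) (gr W φ (s + j)) k M N hgab hgb hx hk0 hNk (√(256 * k / m)) (√(2 * m * l))
        (Real.sqrt_pos.2 (by positivity)) (by
          have h9 := Real.sqrt_le_sqrt hw2
          rwa [Real.sqrt_one] at h9) (Real.sqrt_pos.2 (by positivity)) (by
          rw [Real.sq_sqrt (by positivity)]
          have h4 : 256 * (k : ℝ) / m * (cov W φ φ (gr W φ (s + j)) - cov W φ φ (gr W φ s)) ≤ 256 * (k : ℝ) / m * (1 / 64 * m) :=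
            mul_le_mul_of_nonneg_left hD.le (by positivity)
          have e : 256 * (k : ℝ) / m * (1 / 64 * m) = 4 * k := by
            field_simp
            ring
          linarith) (by
          rw [← Real.sqrt_mul (by positivity)]
          apply Real.le_sqrt_of_sq_le
          have e : 256 * (k : ℝ) / m * (2 * m * l) = 512 * k * l := by
            field_simp
            ring
          rw [e]
          have h5 : (4 * (k : ℝ) * Real.exp 1) ^ 2 = 16 * k * (k * Real.exp 1 ^ 2) := by ring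
          rw [h5]
          have h6 : (k : ℝ) * Real.exp 1 ^ 2 ≤ 4 * l * 8 := by gcongr
          have h7 : 16 * (k : ℝ) * (k * Real.exp 1 ^ 2) ≤ 16 * k * (4 * l * 8) := mul_le_mul_of_nonneg_left h6 (by positivity)
          linarith)
      have h4 : (((box M N).filter (fun v => (1 + δ / 2) * √(2 * m * l) ≤ |err W φ (gr W φ (s + j)) v - err W φ (gr W φ s) v|)).card : ℝ) ≤
          (((box M N).filter (fun v => √(2 * m * l) ≤ |err W φ (gr W φ (s + j)) v - err W φ (gr W φ s) v|)).card : ℝ) := by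
        have : (box M N).filter (fun v => (1 + δ / 2) * √(2 * m * l) ≤ |err W φ (gr W φ (s + j)) v - err W φ (gr W φ s) v|) ⊆
            (box M N).filter (fun v => √(2 * m * l) ≤ |err W φ (gr W φ (s + j)) v - err W φ (gr W φ s) v|) := by
          intro v hv
          rw [mem_filter] at hv ⊢
          refine ⟨hv.1, le_trans ?_ hv.2⟩
          have := Real.sqrt_nonneg (2 * m * l)
          nlinarith
        exact_mod_cast card_le_card this
      refine h4.trans (h3.trans ?_)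
      apply mul_le_mul_of_nonneg_right _ hbox0
      have h6 : Real.exp (-(k : ℝ)) ≤ Real.exp (-((1 + δ / 4) * l)) := by
        apply Real.exp_le_exp.2
        nlinarith
      have h7 := (Real.exp_pos (-((1 + δ / 4) * l))).le
      linarith
  -- the union
  have hQ : ∀ v : Fin n → ℤ, (¬ ∀ m : ℕ, A * l ≤ m → (m : ℝ) ≤ Real.exp (δ / 64 * l) → ∀ a b : ℕ, a ≤ b → b ≤ x →
        cov W φ φ b - cov W φ φ a ≤ m → |err W φ b v - err W φ a v| ≤ (1 + δ) * √(2 * m * l)) →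
      (∃ s ∈ range (T + 1), ((s : ℝ) ≤ cov W φ φ x) ∧ 44 * l ≤ |err W (rare W φ) (lastH W φ x s) v - err W (rare W φ) (gr W φ s) v|) ∨
      (∃ p ∈ range (T + 1) ×ˢ (range (U + 1) ×ˢ range (U + 1)), (((p.1 + p.2.1 : ℕ) : ℝ) ≤ cov W φ φ x ∧ p.2.1 ≤ p.2.2 ∧ A * l ≤ p.2.2) ∧
        (1 + δ / 2) * √(2 * p.2.2 * l) ≤ |err W φ (gr W φ (p.1 + p.2.1)) v - err W φ (gr W φ p.1) v|) := by
    intro v hv
    by_contra hcon
    rw [not_or] at hcon
    obtain ⟨c1, c2⟩ := hcon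
    apply hv
    intro m hm1 hm2 a b hab hbx hD
    have hmr : (0 : ℝ) ≤ m := Nat.cast_nonneg _
    have hmU : m < U + 1 := by
      rw [hU, hG]
      have := Nat.le_floor hm2
      omega
    have hsT : ∀ s : ℕ, (s : ℝ) ≤ cov W φ φ x → s < T + 1 := by
      intro s hs
      rw [hV] at hs
      rw [hT]
      have := Nat.le_floor hs
      omega
    have h3 := det W φ h01 x m v (44 * l) ((1 + δ / 2) * √(2 * m * l)) (by
      intro s hs
      by_contra h4
      push Not at h4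
      exact c1 ⟨s, mem_range.2 (hsT s hs), hs, h4.le⟩) (by
      intro s j hj hs
      by_contra h4
      push Not at h4
      refine c2 ⟨(s, j, m), ?_, ⟨hs, hj, hm1⟩, h4.le⟩
      have h5 := hsT (s + j) hs
      rw [mem_product, mem_product, mem_range, mem_range, mem_range]
      exact ⟨show s < T + 1 by omega, show j < U + 1 by omega, hmU⟩) a b hab hbx hD
    refine h3.trans ?_
    have h4 : 96 * l ≤ δ / 2 * √(2 * m * l) := by
      have h5 : (192 / δ) * l ≤ √(2 * m * l) := by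
        apply Real.le_sqrt_of_sq_le
        have h6 : (192 / δ * l) ^ 2 = 36864 * (1 / δ ^ 2) * l ^ 2 := by
          field_simp
          ring
        rw [h6]
        have h7 : 20000 * (1 / δ ^ 2) * l ≤ m := le_trans (mul_le_mul_of_nonneg_right hAδ hl0.le) hm1
        have h8 : 20000 * (1 / δ ^ 2) * l * (2 * l) ≤ m * (2 * l) := mul_le_mul_of_nonneg_right h7 (by positivity)
        have h9 : 0 ≤ 1 / δ ^ 2 * l ^ 2 := by positivity
        nlinarith
      have h6 : δ / 2 * (192 / δ * l) ≤ δ / 2 * √(2 * m * l) := mul_le_mul_of_nonneg_left h5 (by positivity)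
      have e : δ / 2 * (192 / δ * l) = 96 * l := by
        field_simp
        ring
      linarith
    linarith
  refine (or_card (box M N) _ _ _ hQ).trans ?_
  have hc1 := card_exists_le (box M N) (range (T + 1)) (fun v => ∃ s ∈ range (T + 1), ((s : ℝ) ≤ cov W φ φ x) ∧
    44 * l ≤ |err W (rare W φ) (lastH W φ x s) v - err W (rare W φ) (gr W φ s) v|) (fun s v => ((s : ℝ) ≤ cov W φ φ x) ∧
    44 * l ≤ |err W (rare W φ) (lastH W φ x s) v - err W (rare W φ) (gr W φ s) v|) (fun v h => h)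
  have hc2 := card_exists_le (box M N) (range (T + 1) ×ˢ (range (U + 1) ×ˢ range (U + 1)))
    (fun v => ∃ p ∈ range (T + 1) ×ˢ (range (U + 1) ×ˢ range (U + 1)), (((p.1 + p.2.1 : ℕ) : ℝ) ≤ cov W φ φ x ∧ p.2.1 ≤ p.2.2 ∧ A * l ≤ p.2.2) ∧
        (1 + δ / 2) * √(2 * p.2.2 * l) ≤ |err W φ (gr W φ (p.1 + p.2.1)) v - err W φ (gr W φ p.1) v|)
    (fun p v => (((p.1 + p.2.1 : ℕ) : ℝ) ≤ cov W φ φ x ∧ p.2.1 ≤ p.2.2 ∧ A * l ≤ p.2.2) ∧
        (1 + δ / 2) * √(2 * p.2.2 * l) ≤ |err W φ (gr W φ (p.1 + p.2.1)) v - err W φ (gr W φ p.1) v|) (fun v h => h)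
  have hTr : ((T + 1 : ℕ) : ℝ) ≤ 2 * Real.exp l := by
    push_cast
    rw [hT]
    have h3 := Nat.floor_le (Real.exp_pos l).le
    have h4 := Real.one_le_exp hl0.le
    linarith
  have hUr : ((U + 1 : ℕ) : ℝ) ≤ 2 * G := by
    push_cast
    rw [hU]
    have h3 := Nat.floor_le (show 0 ≤ G by rw [hG]; exact (Real.exp_pos _).le)
    have h4 : 1 ≤ G := by rw [hG]; exact Real.one_le_exp (by positivity)
    linarith
  have hG0 : 0 < G := by rw [hG]; exact Real.exp_pos _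
  have hs1 : ∑ s ∈ range (T + 1), (((box M N).filter (fun v => ((s : ℝ) ≤ cov W φ φ x) ∧
      44 * l ≤ |err W (rare W φ) (lastH W φ x s) v - err W (rare W φ) (gr W φ s) v|)).card : ℝ) ≤
      6 * Real.exp (-(δ / 8 * l)) * (box M N).card := by
    refine (sum_le_sum fun s _ => hE1 s).trans ?_
    rw [sum_const, card_range, nsmul_eq_mul]
    calc ((T + 1 : ℕ) : ℝ) * (3 * Real.exp (-(3 * l)) * (box M N).card) ≤ (2 * Real.exp l) * (3 * Real.exp (-(3 * l)) * (box M N).card) := by gcongr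
      _ = 6 * (Real.exp l * Real.exp (-(3 * l))) * (box M N).card := by ring
      _ ≤ 6 * Real.exp (-(δ / 8 * l)) * (box M N).card := by
          gcongr
          rw [← Real.exp_add]
          apply Real.exp_le_exp.2
          nlinarith
  have hs2 : ∑ p ∈ range (T + 1) ×ˢ (range (U + 1) ×ˢ range (U + 1)), (((box M N).filter (fun v =>
      (((p.1 + p.2.1 : ℕ) : ℝ) ≤ cov W φ φ x ∧ p.2.1 ≤ p.2.2 ∧ A * l ≤ p.2.2) ∧
        (1 + δ / 2) * √(2 * p.2.2 * l) ≤ |err W φ (gr W φ (p.1 + p.2.1)) v - err W φ (gr W φ p.1) v|)).card : ℝ) ≤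
      40 * Real.exp (-(δ / 8 * l)) * (box M N).card := by
    refine (sum_le_sum fun p _ => hE2 p.1 p.2.1 p.2.2).trans ?_
    rw [sum_const, card_product, card_product, card_range, card_range, nsmul_eq_mul]
    calc (((T + 1) * ((U + 1) * (U + 1)) : ℕ) : ℝ) * (5 * Real.exp (-((1 + δ / 4) * l)) * (box M N).card)
        = ((T + 1 : ℕ) : ℝ) * (((U + 1 : ℕ) : ℝ) * ((U + 1 : ℕ) : ℝ)) * (5 * Real.exp (-((1 + δ / 4) * l)) * (box M N).card) := by push_cast; ring
      _ ≤ (2 * Real.exp l) * ((2 * G) * (2 * G)) * (5 * Real.exp (-((1 + δ / 4) * l)) * (box M N).card) := by gcongr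
      _ = 40 * (Real.exp l * (G * G) * Real.exp (-((1 + δ / 4) * l))) * (box M N).card := by ring
      _ ≤ 40 * Real.exp (-(δ / 8 * l)) * (box M N).card := by
          gcongr
          rw [hG, ← Real.exp_add, ← Real.exp_add, ← Real.exp_add]
          apply Real.exp_le_exp.2
          nlinarith
  have hfin : 46 * Real.exp (-(δ / 8 * l)) ≤ Real.exp (-(δ / 64 * l)) := by
    have h1 : Real.exp (-(δ / 64 * l)) = Real.exp (7 / 64 * (δ * l)) * Real.exp (-(δ / 8 * l)) := by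
      rw [← Real.exp_add]
      congr 1
      ring
    rw [h1]
    apply mul_le_mul_of_nonneg_right _ (Real.exp_pos _).le
    refine exp_four.trans (Real.exp_le_exp.2 ?_)
    linarith
  have h1 := hc1.trans hs1
  have h2 := hc2.trans hs2
  have h3 : 6 * Real.exp (-(δ / 8 * l)) * (box M N).card + 40 * Real.exp (-(δ / 8 * l)) * (box M N).card ≤
      Real.exp (-(δ / 64 * l)) * (box M N).card := by
    calc 6 * Real.exp (-(δ / 8 * l)) * (box M N).card + 40 * Real.exp (-(δ / 8 * l)) * (box M N).card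
        = 46 * Real.exp (-(δ / 8 * l)) * (box M N).card := by ring
      _ ≤ _ := mul_le_mul_of_nonneg_right hfin hbox0
  refine le_trans (add_le_add ?_ ?_) h3
  · convert h1
  · convert h2

end Pool.Agent.H46.LT
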