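import Pool.Graph.R_pool_sql_team_seeded_c8625f6e.K4H16.CG.LTtv
import Pool.Agent.H46.LT.Up

/-!
# Gaps between the primes with given Frobenius traces: one or two windows
-/

set_option autoImplicit false

namespace Pool.Agent.H46.LT

open Finset Pool.Agent.K4H16.CG

variable {n r : ℕ}

/-- The prime `p` satisfies the condition `S` at the integer point `v`. -/
def Hit (W : Fin r → WeierstrassCurve (MvPolynomial (Fin n) ℤ)) (S : ℕ → (Fin r → Option ℤ) → Prop) (p : ℕ) (v : Fin n → ℤ) : Prop :=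
  S p (fun i => frob (member (W i) v) p)

open Classical in
/-- The proportion of the points modulo `p` at which `p` satisfies the condition. -/
noncomputable def freq (W : Fin r → WeierstrassCurve (MvPolynomial (Fin n) ℤ)) (S : ℕ → (Fin r → Option ℤ) → Prop) (p : ℕ) : ℝ :=
  meanMod p (fun c => if Hit W S p c then (1 : ℝ) else 0)

/-- The clock: `exp (-(clock b - clock a))` is the probability, in the model of independent uniformly distributed residues modulo
the primes, that no prime `p` with `a < p ≤ b` satisfies the condition. -/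
noncomputable def clock (W : Fin r → WeierstrassCurve (MvPolynomial (Fin n) ℤ)) (S : ℕ → (Fin r → Option ℤ) → Prop) (y : ℕ) : ℝ :=
  ∑ p ∈ (range (y + 1)).filter Nat.Prime, -Real.log (1 - freq W S p)

open Classical in
/-- the marks -/
noncomputable def th (S : ℕ → (Fin r → Option ℤ) → Prop) (D : ℕ → Prop) : ℕ → (Fin r → Option ℤ) → Fin (1 + 1) :=
  fun p d => if D p ∧ S p d then 1 else 0

open Classical in
/-- the clock length of a set of primes -/
noncomputable def hd (W : Fin r → WeierstrassCurve (MvPolynomial (Fin n) ℤ)) (S : ℕ → (Fin r → Option ℤ) → Prop) (x : ℕ) (D : ℕ → Prop) : ℝ :=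
  ∑ p ∈ (range (x + 1)).filter Nat.Prime, if D p then -Real.log (1 - freq W S p) else 0

lemma freq_nonneg (W : Fin r → WeierstrassCurve (MvPolynomial (Fin n) ℤ)) (S : ℕ → (Fin r → Option ℤ) → Prop) (p : ℕ) : 0 ≤ freq W S p := by
  classical
  unfold freq meanMod
  apply div_nonneg _ (by positivity)
  apply sum_nonneg
  intro c _
  beta_reduce
  split_ifs <;> norm_num

lemma log_bd {q : ℝ} (h0 : 0 ≤ q) (h1 : q ≤ 1 / 2) : q ≤ -Real.log (1 - q) ∧ -Real.log (1 - q) ≤ 1 := by
  have h2 : 0 < 1 - q := by linarith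
  constructor
  · have := Real.log_le_sub_one_of_pos h2
    linarith
  · have h3 : Real.log (1 - q) = -Real.log (1 - q)⁻¹ := by rw [Real.log_inv]; ring
    have h4 := Real.log_le_sub_one_of_pos (inv_pos.2 h2)
    have h5 : (1 - q)⁻¹ ≤ 2 := by
      rw [inv_le_comm₀ h2 (by norm_num)]
      linarith
    linarith

open Classical in
lemma mark_th (W : Fin r → WeierstrassCurve (MvPolynomial (Fin n) ℤ)) (S : ℕ → (Fin r → Option ℤ) → Prop) (D : ℕ → Prop) (p : ℕ)
    (v : Fin n → ℤ) : mark W (th S D) p v = if D p ∧ Hit W S p v then 1 else 0 := rfl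

open Classical in
lemma mark_zero (W : Fin r → WeierstrassCurve (MvPolynomial (Fin n) ℤ)) (S : ℕ → (Fin r → Option ℤ) → Prop) (D : ℕ → Prop) (p : ℕ)
    (v : Fin n → ℤ) : mark W (th S D) p v = 0 ↔ (D p → ¬ Hit W S p v) := by
  rw [mark_th]
  by_cases h : D p ∧ Hit W S p v
  · rw [if_pos h]
    constructor
    · intro h1
      exact absurd h1 (by decide)
    · intro h1
      exact absurd h.2 (h1 h.1)
  · rw [if_neg h]
    exact ⟨fun _ h1 h2 => h ⟨h1, h2⟩, fun _ => rfl⟩

open Classical in
lemma meanMod_one (p : ℕ) [NeZero p] : meanMod p (fun _ : Fin n → ℤ => (1 : ℝ)) = 1 := by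
  have h1 := meanMod_one_sub (n := n) p (fun _ => (0 : ℝ))
  rw [meanMod_zero] at h1
  simpa using h1

open Classical in
lemma law_zero (W : Fin r → WeierstrassCurve (MvPolynomial (Fin n) ℤ)) (S : ℕ → (Fin r → Option ℤ) → Prop) (D : ℕ → Prop) (p : ℕ)
    [NeZero p] : lawMod W (th S D) p 0 = if D p then 1 - freq W S p else 1 := by
  unfold lawMod
  by_cases h : D p
  · rw [if_pos h]
    unfold freq
    rw [← meanMod_one_sub]
    congr 1
    funext c
    by_cases h2 : Hit W S p c
    · rw [if_pos h2, if_neg (fun h3 => (mark_zero W S D p c).1 h3 h h2)]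
      norm_num
    · rw [if_neg h2, if_pos ((mark_zero W S D p c).2 fun _ => h2)]
      norm_num
  · rw [if_neg h]
    have e : (fun c : Fin n → ℤ => if mark W (th S D) p c = 0 then (1 : ℝ) else 0) = fun _ => 1 := by
      funext c
      rw [if_pos ((mark_zero W S D p c).2 fun h2 => absurd h2 h)]
    rw [e, meanMod_one]

open Classical in
lemma exp_le (W : Fin r → WeierstrassCurve (MvPolynomial (Fin n) ℤ)) (S : ℕ → (Fin r → Option ℤ) → Prop)
    (hq : ∀ p, p.Prime → freq W S p ≤ 1 / 2) (D : ℕ → Prop) (x : ℕ) : 0 ≤ expected W (th S D) x ∧ expected W (th S D) x ≤ hd W S x D := by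
  constructor
  · unfold expected meanMod
    apply sum_nonneg
    intro p _
    apply div_nonneg _ (by positivity)
    apply sum_nonneg
    intro c _
    beta_reduce
    split_ifs <;> norm_num
  · unfold expected hd
    apply sum_le_sum
    intro p hp
    rw [mem_filter] at hp
    have : NeZero p := ⟨hp.2.ne_zero⟩
    have e : meanMod p (fun c => if mark W (th S D) p c ≠ 0 then (1 : ℝ) else 0) = 1 - lawMod W (th S D) p 0 := by
      unfold lawMod
      rw [← meanMod_one_sub]
      congr 1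
      funext c
      by_cases h2 : mark W (th S D) p c = 0
      · rw [if_pos h2, if_neg (fun h3 => h3 h2)]
        norm_num
      · rw [if_neg h2, if_pos h2]
        norm_num
    rw [e, law_zero]
    split_ifs
    · have := (log_bd (freq_nonneg W S p) (hq p hp.2)).1
      linarith
    · norm_num

open Classical in
/-- the proportion of the members without any prime in `D` -/
theorem gap_prob (n : ℕ) : ∃ B : ℕ, ∀ (r : ℕ) (W : Fin r → WeierstrassCurve (MvPolynomial (Fin n) ℤ))
    (S : ℕ → (Fin r → Option ℤ) → Prop), (∀ p, p.Prime → freq W S p ≤ 1 / 2) → ∀ (D : ℕ → Prop) (x : ℕ), 2 ≤ x → ∀ L : ℝ, 1 ≤ L →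
    ∀ (M : Fin n → ℤ) (N : Fin n → ℕ), (∀ i, (x : ℝ) ^ ((B : ℝ) * (hd W S x D + L)) ≤ N i) →
      |(((box M N).filter (fun v => ∀ p : ℕ, p.Prime → p ≤ x → D p → ¬ Hit W S p v)).card : ℝ) -
        Real.exp (-hd W S x D) * (box M N).card| ≤ Real.exp (-L) * (box M N).card := by
  obtain ⟨B, hB⟩ := tv_family n 1 1
  refine ⟨B, ?_⟩
  intro r W S hq D x hx L hL M N hN
  have hx1 : (1 : ℝ) ≤ x := by exact_mod_cast (show 1 ≤ x by omega)
  obtain ⟨he0, he1⟩ := exp_le W S hq D x
  obtain ⟨G, hG⟩ : ∃ G : (PrimesUpTo x → Fin (1 + 1)) → ℝ, G = fun f => if f = (fun _ => 0) then (1 : ℝ) else 0 := ⟨_, rfl⟩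
  have hG1 : ∀ f, f = (fun _ => 0) → G f = 1 := by
    intro f h
    rw [hG]
    exact if_pos h
  have hG0 : ∀ f, f ≠ (fun _ => 0) → G f = 0 := by
    intro f h
    rw [hG]
    exact if_neg h
  have h1 := hB r W (th S D) x hx L hL M N (by
    intro i
    refine le_trans (Real.rpow_le_rpow_of_exponent_le hx1 ?_) (hN i)
    apply mul_le_mul_of_nonneg_left _ (Nat.cast_nonneg _)
    linarith) G (by
    intro f
    by_cases h : f = (fun _ => 0)
    · rw [hG1 f h]
      norm_num
    · rw [hG0 f h]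
      norm_num)
  have e1 : ∑ v ∈ box M N, G (fun p => mark W (th S D) p v) =
      (((box M N).filter (fun v => ∀ p : ℕ, p.Prime → p ≤ x → D p → ¬ Hit W S p v)).card : ℝ) := by
    rw [← sum_boole]
    apply sum_congr rfl
    intro v _
    have h2 : ((fun p : PrimesUpTo x => mark W (th S D) p v) = fun _ => 0) ↔ ∀ p : ℕ, p.Prime → p ≤ x → D p → ¬ Hit W S p v := by
      constructor
      · intro h3 p hp hpx
        exact (mark_zero W S D p v).1 (congrFun h3 ⟨p, by rw [mem_filter, mem_range]; exact ⟨by omega, hp⟩⟩)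
      · intro h3
        funext p
        have hp := p.2
        rw [mem_filter, mem_range] at hp
        exact (mark_zero W S D p v).2 (h3 p hp.2 (by omega))
    by_cases h3 : ∀ p : ℕ, p.Prime → p ≤ x → D p → ¬ Hit W S p v
    · rw [if_pos h3]
      exact hG1 _ (h2.2 h3)
    · rw [if_neg h3]
      exact hG0 _ (fun h4 => h3 (h2.1 h4))
  have e2 : ∑ f : PrimesUpTo x → Fin (1 + 1), G f * ∏ p : PrimesUpTo x, lawMod W (th S D) p (f p) = Real.exp (-hd W S x D) := by
    rw [sum_eq_single (fun _ => 0)]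
    · rw [hG1 _ rfl, one_mul]
      have h3 : ∏ p : PrimesUpTo x, lawMod W (th S D) (p : ℕ) 0 = ∏ p ∈ (range (x + 1)).filter Nat.Prime, lawMod W (th S D) p 0 :=
        prod_coe_sort ((range (x + 1)).filter Nat.Prime) (fun p => lawMod W (th S D) p 0)
      rw [h3]
      unfold hd
      rw [← sum_neg_distrib, Real.exp_sum]
      apply prod_congr rfl
      intro p hp
      rw [mem_filter] at hp
      have : NeZero p := ⟨hp.2.ne_zero⟩
      rw [law_zero]
      have h5 := hq p hp.2
      split_ifs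
      · rw [neg_neg, Real.exp_log (by linarith)]
      · rw [neg_zero, Real.exp_zero]
    · intro f _ hf
      rw [hG0 f hf, zero_mul]
    · intro h
      exact absurd (mem_univ _) h
  rw [e1, e2, mul_comm ((box M N).card : ℝ)] at h1
  refine h1.trans ?_
  apply mul_le_mul_of_nonneg_right _ (Nat.cast_nonneg _)
  apply Real.exp_le_exp.2
  linarith

lemma hd_win (W : Fin r → WeierstrassCurve (MvPolynomial (Fin n) ℤ)) (S : ℕ → (Fin r → Option ℤ) → Prop) (a b x : ℕ) (hab : a ≤ b)
    (hbx : b ≤ x) : hd W S x (fun p => a < p ∧ p ≤ b) = clock W S b - clock W S a := by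
  classical
  unfold hd clock
  rw [← sum_split (fun p => -Real.log (1 - freq W S p)) a b hab, ← wsum (fun p => -Real.log (1 - freq W S p)) a b x hbx]
  apply sum_congr rfl
  intro p _
  by_cases h : a < p ∧ p ≤ b
  · rw [if_pos h, if_pos h]
  · rw [if_neg h, if_neg h]

lemma hd_or (W : Fin r → WeierstrassCurve (MvPolynomial (Fin n) ℤ)) (S : ℕ → (Fin r → Option ℤ) → Prop) (x : ℕ) (D D' : ℕ → Prop)
    (h : ∀ p, D p → ¬ D' p) : hd W S x (fun p => D p ∨ D' p) = hd W S x D + hd W S x D' := by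
  classical
  unfold hd
  rw [← sum_add_distrib]
  apply sum_congr rfl
  intro p _
  by_cases h1 : D p
  · have h2 := h p h1
    rw [if_pos (Or.inl h1), if_pos h1, if_neg h2, add_zero]
  · by_cases h2 : D' p
    · rw [if_pos (Or.inr h2), if_neg h1, if_pos h2, zero_add]
    · rw [if_neg (not_or.2 ⟨h1, h2⟩), if_neg h1, if_neg h2, add_zero]

lemma clock_mono (W : Fin r → WeierstrassCurve (MvPolynomial (Fin n) ℤ)) (S : ℕ → (Fin r → Option ℤ) → Prop)
    (hq : ∀ p, p.Prime → freq W S p ≤ 1 / 2) (a b : ℕ) (hab : a ≤ b) : clock W S a ≤ clock W S b := by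
  unfold clock
  apply sum_le_sum_of_subset_of_nonneg
  · intro p hp
    rw [mem_filter, mem_range] at hp ⊢
    exact ⟨by omega, hp.2⟩
  · intro p hp _
    rw [mem_filter] at hp
    have h1 := (log_bd (freq_nonneg W S p) (hq p hp.2)).1
    have h2 := freq_nonneg W S p
    linarith

lemma clock_zero (W : Fin r → WeierstrassCurve (MvPolynomial (Fin n) ℤ)) (S : ℕ → (Fin r → Option ℤ) → Prop) : clock W S 0 = 0 := by
  have h2 : (range (0 + 1)).filter Nat.Prime = ∅ := by
    rw [filter_eq_empty_iff]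
    intro p hp
    rw [mem_range] at hp
    intro h
    have := h.two_le
    omega
  unfold clock
  rw [h2, sum_empty]

lemma clock_succ (W : Fin r → WeierstrassCurve (MvPolynomial (Fin n) ℤ)) (S : ℕ → (Fin r → Option ℤ) → Prop)
    (hq : ∀ p, p.Prime → freq W S p ≤ 1 / 2) (a : ℕ) : clock W S (a + 1) ≤ clock W S a + 1 := by
  unfold clock
  rw [range_add_one (n := a + 1), filter_insert]
  split_ifs with h
  · rw [sum_insert (by rw [mem_filter, mem_range]; omega)]
    have h1 := (log_bd (freq_nonneg W S (a + 1)) (hq (a + 1) h)).2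
    linarith
  · linarith

/-- the first height at which the clock is at least `t` -/
noncomputable def gc (W : Fin r → WeierstrassCurve (MvPolynomial (Fin n) ℤ)) (S : ℕ → (Fin r → Option ℤ) → Prop) (t : ℕ) : ℕ :=
  sInf {y | (t : ℝ) ≤ clock W S y}

lemma gc_le (W : Fin r → WeierstrassCurve (MvPolynomial (Fin n) ℤ)) (S : ℕ → (Fin r → Option ℤ) → Prop) (t y : ℕ)
    (h : (t : ℝ) ≤ clock W S y) : gc W S t ≤ y := Nat.sInf_le h

lemma gc_ge (W : Fin r → WeierstrassCurve (MvPolynomial (Fin n) ℤ)) (S : ℕ → (Fin r → Option ℤ) → Prop) (t y : ℕ)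
    (h : (t : ℝ) ≤ clock W S y) : (t : ℝ) ≤ clock W S (gc W S t) := Nat.sInf_mem (s := {y | (t : ℝ) ≤ clock W S y}) ⟨y, h⟩

lemma gc_lt (W : Fin r → WeierstrassCurve (MvPolynomial (Fin n) ℤ)) (S : ℕ → (Fin r → Option ℤ) → Prop)
    (hq : ∀ p, p.Prime → freq W S p ≤ 1 / 2) (t y : ℕ) (_h : (t : ℝ) ≤ clock W S y) : clock W S (gc W S t) ≤ t + 1 := by
  rcases Nat.eq_zero_or_pos (gc W S t) with h0 | h0
  · rw [h0, clock_zero]
    positivity
  · obtain ⟨a, ha⟩ := Nat.exists_eq_succ_of_ne_zero h0.ne'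
    have h1 : ¬ (t : ℝ) ≤ clock W S a := by
      intro h2
      have := gc_le W S t a h2
      omega
    have h2 := clock_succ W S hq a
    rw [ha]
    change clock W S (a + 1) ≤ _
    push Not at h1
    linarith

lemma gc_mono (W : Fin r → WeierstrassCurve (MvPolynomial (Fin n) ℤ)) (S : ℕ → (Fin r → Option ℤ) → Prop) (s t y : ℕ) (hst : s ≤ t)
    (h : (t : ℝ) ≤ clock W S y) : gc W S s ≤ gc W S t := by
  apply gc_le
  have h1 := gc_ge W S t y h
  have h2 : (s : ℝ) ≤ t := by exact_mod_cast hst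
  linarith

end Pool.Agent.H46.LT
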