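import Pool.Agent.H46.LT.Gap

/-!
# Gaps between the primes with given Frobenius traces: the longest gap
-/

set_option autoImplicit false

namespace Pool.Agent.H46.LT

open Finset Pool.Agent.K4H16.CG

variable {n r : ℕ}

open Classical in
/-- the second moment method -/
lemma second {α : Type*} (s : Finset α) (J : ℕ) (X : ℕ → α → Prop) (p : ℕ → ℝ) (η : ℝ) (hη : 0 ≤ η) (hp : ∀ k < J, 0 ≤ p k ∧ p k ≤ 1)
    (h1 : ∀ k < J, |((s.filter (X k)).card : ℝ) - p k * s.card| ≤ η * s.card)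
    (h2 : ∀ k < J, ∀ j < J, k ≠ j → |((s.filter (fun v => X k v ∧ X j v)).card : ℝ) - p k * p j * s.card| ≤ η * s.card)
    (μ : ℝ) (hμ : μ = ∑ k ∈ range J, p k) (hμ0 : 0 < μ) :
    ((s.filter (fun v => ∀ k < J, ¬ X k v)).card : ℝ) ≤ (1 / μ + 3 * J ^ 2 * η / μ ^ 2) * s.card := by
  obtain ⟨c, hc⟩ : ∃ c : ℝ, c = s.card := ⟨_, rfl⟩
  have hc0 : 0 ≤ c := by rw [hc]; positivity
  rw [← hc] at h1 h2 ⊢
  obtain ⟨Z, hZ⟩ : ∃ Z : α → ℝ, Z = fun v => ∑ k ∈ range J, if X k v then (1 : ℝ) else 0 := ⟨_, rfl⟩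
  have hZ1 : ∑ v ∈ s, Z v = ∑ k ∈ range J, ((s.filter (X k)).card : ℝ) := by
    rw [hZ]
    simp only
    rw [sum_comm]
    apply sum_congr rfl
    intro k _
    rw [sum_boole]
  have hZ2 : ∑ v ∈ s, (Z v) ^ 2 = ∑ k ∈ range J, ∑ j ∈ range J, ((s.filter (fun v => X k v ∧ X j v)).card : ℝ) := by
    have e : ∀ v ∈ s, (Z v) ^ 2 = ∑ k ∈ range J, ∑ j ∈ range J, if X k v ∧ X j v then (1 : ℝ) else 0 := by
      intro v _
      rw [hZ]
      simp only
      rw [sq, sum_mul_sum]
      apply sum_congr rfl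
      intro k _
      apply sum_congr rfl
      intro j _
      by_cases hk : X k v
      · by_cases hj : X j v
        · have hkj : X k v ∧ X j v := ⟨hk, hj⟩
          rw [if_pos hk, if_pos hj, if_pos hkj, one_mul]
        · have hkj : ¬ (X k v ∧ X j v) := fun h => hj h.2
          rw [if_neg hj, if_neg hkj, mul_zero]
      · have hkj : ¬ (X k v ∧ X j v) := fun h => hk h.1
        rw [if_neg hk, if_neg hkj, zero_mul]
    rw [sum_congr rfl e, sum_comm]
    apply sum_congr rfl
    intro k _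
    rw [sum_comm]
    apply sum_congr rfl
    intro j _
    rw [sum_boole]
  have hb2 : ∑ v ∈ s, (Z v) ^ 2 ≤ μ ^ 2 * c + J ^ 2 * η * c + μ * c := by
    rw [hZ2]
    have h3 : ∀ k ∈ range J, ∑ j ∈ range J, ((s.filter (fun v => X k v ∧ X j v)).card : ℝ) ≤ p k * μ * c + J * η * c + p k * c := by
      intro k hk
      rw [mem_range] at hk
      have h4 : ∀ j ∈ range J, ((s.filter (fun v => X k v ∧ X j v)).card : ℝ) ≤ p k * p j * c + η * c + (if j = k then p k * c else 0) := by
        intro j hj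
        rw [mem_range] at hj
        have hpk := hp k hk
        have hpj := hp j hj
        by_cases hjk : j = k
        · rw [if_pos hjk, hjk]
          have h5 : s.filter (fun v => X k v ∧ X k v) = s.filter (X k) := by
            apply filter_congr
            intro v _
            exact ⟨fun h => h.1, fun h => ⟨h, h⟩⟩
          rw [h5]
          have h6 := (abs_le.1 (h1 k hk)).2
          have h7 : 0 ≤ p k * p k * c := mul_nonneg (mul_nonneg hpk.1 hpk.1) hc0
          linarith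
        · rw [if_neg hjk]
          have h6 := (abs_le.1 (h2 k hk j hj (Ne.symm hjk))).2
          linarith
      refine (sum_le_sum h4).trans (le_of_eq ?_)
      rw [sum_add_distrib, sum_add_distrib, sum_ite_eq' (range J) k, if_pos (mem_range.2 hk), ← sum_mul, ← mul_sum, ← hμ, sum_const, card_range,
        nsmul_eq_mul]
      ring
    refine (sum_le_sum h3).trans (le_of_eq ?_)
    have e3 : ∀ k ∈ range J, p k * μ * c + J * η * c + p k * c = p k * (μ * c + c) + J * η * c := fun k _ => by ring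
    rw [sum_congr rfl e3, sum_add_distrib, ← sum_mul, ← hμ, sum_const, card_range, nsmul_eq_mul]
    ring
  have hb1 : μ * c - J * η * c ≤ ∑ v ∈ s, Z v := by
    rw [hZ1]
    have h3 : ∀ k ∈ range J, p k * c - η * c ≤ ((s.filter (X k)).card : ℝ) := by
      intro k hk
      have h6 := (abs_le.1 (h1 k (mem_range.1 hk))).1
      linarith
    refine le_trans (le_of_eq ?_) (sum_le_sum h3)
    rw [sum_sub_distrib, ← sum_mul, ← hμ, sum_const, card_range, nsmul_eq_mul]
    ring
  have hμJ : μ ≤ J := by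
    rw [hμ]
    refine (sum_le_sum fun k hk => (hp k (mem_range.1 hk)).2).trans ?_
    rw [sum_const, card_range, nsmul_eq_mul, mul_one]
  have hlow : ((s.filter (fun v => ∀ k < J, ¬ X k v)).card : ℝ) * μ ^ 2 ≤ ∑ v ∈ s, (Z v - μ) ^ 2 := by
    calc ((s.filter (fun v => ∀ k < J, ¬ X k v)).card : ℝ) * μ ^ 2 = ∑ v ∈ s.filter (fun v => ∀ k < J, ¬ X k v), μ ^ 2 := by
          rw [sum_const, nsmul_eq_mul]
      _ = ∑ v ∈ s.filter (fun v => ∀ k < J, ¬ X k v), (Z v - μ) ^ 2 := by
          apply sum_congr rfl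
          intro v hv
          rw [mem_filter] at hv
          have : Z v = 0 := by
            rw [hZ]
            apply sum_eq_zero
            intro k hk
            rw [if_neg (hv.2 k (mem_range.1 hk))]
          rw [this]
          ring
      _ ≤ _ := sum_le_sum_of_subset_of_nonneg (filter_subset _ _) fun _ _ _ => sq_nonneg _
  have hexp : ∑ v ∈ s, (Z v - μ) ^ 2 = ∑ v ∈ s, (Z v) ^ 2 - 2 * μ * ∑ v ∈ s, Z v + μ ^ 2 * c := by
    have e : ∀ v ∈ s, (Z v - μ) ^ 2 = (Z v) ^ 2 - 2 * μ * Z v + μ ^ 2 := fun v _ => by ring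
    rw [sum_congr rfl e, sum_add_distrib, sum_sub_distrib, ← mul_sum, sum_const, nsmul_eq_mul, hc]
    ring
  have hJη : 0 ≤ (J : ℝ) * η * c := by positivity
  have hJη2 : μ * ((J : ℝ) * η * c) ≤ J * (J * η * c) := mul_le_mul_of_nonneg_right hμJ hJη
  have hmain : ((s.filter (fun v => ∀ k < J, ¬ X k v)).card : ℝ) * μ ^ 2 ≤ (μ + 3 * J ^ 2 * η) * c := by
    refine hlow.trans ?_
    rw [hexp]
    have h3 : 2 * μ * (μ * c - J * η * c) ≤ 2 * μ * ∑ v ∈ s, Z v := mul_le_mul_of_nonneg_left hb1 (by positivity)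
    nlinarith
  have e : (1 / μ + 3 * J ^ 2 * η / μ ^ 2) * c = (μ + 3 * J ^ 2 * η) * c / μ ^ 2 := by
    field_simp
  rw [e, le_div_iff₀ (by positivity)]
  exact hmain

lemma clock_small (W : Fin r → WeierstrassCurve (MvPolynomial (Fin n) ℤ)) (S : ℕ → (Fin r → Option ℤ) → Prop) (x : ℕ) (hx : x < 2) :
    clock W S x = 0 := by
  have h2 : (range (x + 1)).filter Nat.Prime = ∅ := by
    rw [filter_eq_empty_iff]
    intro p hp
    rw [mem_range] at hp
    intro h
    have := h.two_le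
    omega
  unfold clock
  rw [h2, sum_empty]

open Classical in
/-- no long gaps -/
theorem gap_upper (n : ℕ) (δ : ℝ) (hδ : 0 < δ) (hδ1 : δ ≤ 1) : ∃ (A Λ : ℝ), 1 ≤ A ∧ 1 ≤ Λ ∧ ∀ (r : ℕ)
    (W : Fin r → WeierstrassCurve (MvPolynomial (Fin n) ℤ)) (S : ℕ → (Fin r → Option ℤ) → Prop), (∀ p, p.Prime → freq W S p ≤ 1 / 2) →
    ∀ (x : ℕ) (l : ℝ) (M : Fin n → ℤ) (N : Fin n → ℕ), clock W S x = Real.exp l → Λ ≤ l → (∀ i, (x : ℝ) ^ (A * l) ≤ N i) →
      (((box M N).filter (fun v => ¬ ∀ a b : ℕ, a ≤ b → b ≤ x → (1 + δ) * l ≤ clock W S b - clock W S a →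
        ∃ p : ℕ, p.Prime ∧ a < p ∧ p ≤ b ∧ Hit W S p v)).card : ℝ) ≤ 8 * Real.exp (-(δ / 2 * l)) * (box M N).card := by
  obtain ⟨B, H⟩ := gap_prob n
  refine ⟨8 * B + 1, 16 / δ, by linarith [Nat.cast_nonneg (α := ℝ) B], by
    rw [le_div_iff₀ hδ]
    linarith, ?_⟩
  intro r W S hq x l M N hV hl hN
  have hlδ : 16 ≤ δ * l := by
    rw [div_le_iff₀ hδ] at hl
    linarith
  have hl16 : 16 ≤ l := by nlinarith
  have hl0 : 0 < l := by linarith
  have hBr : (0 : ℝ) ≤ B := Nat.cast_nonneg _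
  have hx : 2 ≤ x := by
    by_contra hcon
    push Not at hcon
    rw [clock_small W S x hcon] at hV
    exact (Real.exp_pos l).ne hV
  have hx1 : (1 : ℝ) ≤ x := by exact_mod_cast (show 1 ≤ x by omega)
  have hbox0 : (0 : ℝ) ≤ (box M N).card := Nat.cast_nonneg _
  obtain ⟨w, hw⟩ : ∃ w : ℕ, w = ⌈(1 + δ / 2) * l⌉₊ := ⟨_, rfl⟩
  have hw1 : (1 + δ / 2) * l ≤ w := by rw [hw]; exact Nat.le_ceil _
  have hw2 : (w : ℝ) ≤ (1 + δ / 2) * l + 1 := by
    rw [hw]
    exact (Nat.ceil_lt_add_one (by positivity)).le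
  obtain ⟨T, hT⟩ : ∃ T : ℕ, T = ⌊Real.exp l⌋₊ := ⟨_, rfl⟩
  have hTr : ((T + 1 : ℕ) : ℝ) ≤ 2 * Real.exp l := by
    push_cast
    rw [hT]
    have h3 := Nat.floor_le (Real.exp_pos l).le
    have h4 := Real.one_le_exp hl0.le
    linarith
  have hone : ∀ s : ℕ, (((box M N).filter (fun v => ((s + w : ℕ) : ℝ) ≤ clock W S x ∧ ∀ p : ℕ, p.Prime → p ≤ x →
      (gc W S s < p ∧ p ≤ gc W S (s + w)) → ¬ Hit W S p v)).card : ℝ) ≤ 4 * Real.exp (-((1 + δ / 2) * l)) * (box M N).card := by
    intro s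
    refine guard_card _ _ _ _ (by positivity) fun hs => ?_
    have hs' : (s : ℝ) ≤ clock W S x := le_trans (by push_cast; linarith [Nat.cast_nonneg (α := ℝ) w]) hs
    have g1 := gc_mono W S s (s + w) x (Nat.le_add_right _ _) hs
    have g2 := gc_le W S (s + w) x hs
    have g3 := gc_ge W S (s + w) x hs
    have g4 := gc_lt W S hq (s + w) x hs
    have g5 := gc_ge W S s x hs'
    have g6 := gc_lt W S hq s x hs'
    push_cast at g3 g4
    have g7 := hd_win W S (gc W S s) (gc W S (s + w)) x g1 g2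
    obtain ⟨h, hh⟩ : ∃ h : ℝ, h = clock W S (gc W S (s + w)) - clock W S (gc W S s) := ⟨_, rfl⟩
    rw [← hh] at g7
    have hh1 : (w : ℝ) - 1 ≤ h := by linarith
    have hh2 : h ≤ w + 1 := by linarith
    have h3 := H r W S hq (fun p => gc W S s < p ∧ p ≤ gc W S (s + w)) x hx (4 * l) (by linarith) M N (by
      intro i
      refine le_trans (Real.rpow_le_rpow_of_exponent_le hx1 ?_) (hN i)
      rw [g7]
      have h4 : h + 4 * l ≤ 8 * l := by nlinarith
      have h5 : (B : ℝ) * (h + 4 * l) ≤ B * (8 * l) := mul_le_mul_of_nonneg_left h4 hBr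
      linarith)
    rw [g7] at h3
    have h4 := (abs_le.1 h3).2
    have h5 : Real.exp (-h) ≤ 3 * Real.exp (-((1 + δ / 2) * l)) := by
      have h6 : Real.exp (-h) ≤ Real.exp (1 + -((1 + δ / 2) * l)) := Real.exp_le_exp.2 (by linarith)
      rw [Real.exp_add] at h6
      refine h6.trans ?_
      apply mul_le_mul_of_nonneg_right _ (Real.exp_pos _).le
      have := Real.exp_one_lt_d9
      linarith
    have h6 : Real.exp (-(4 * l)) ≤ Real.exp (-((1 + δ / 2) * l)) := Real.exp_le_exp.2 (by nlinarith)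
    have h7 : (Real.exp (-h) + Real.exp (-(4 * l))) * ((box M N).card : ℝ) ≤ (4 * Real.exp (-((1 + δ / 2) * l))) * (box M N).card :=
      mul_le_mul_of_nonneg_right (by linarith) hbox0
    linarith
  have hc := card_exists_le (box M N) (range (T + 1)) (fun v => ¬ ∀ a b : ℕ, a ≤ b → b ≤ x → (1 + δ) * l ≤ clock W S b - clock W S a →
        ∃ p : ℕ, p.Prime ∧ a < p ∧ p ≤ b ∧ Hit W S p v)
    (fun s v => ((s + w : ℕ) : ℝ) ≤ clock W S x ∧ ∀ p : ℕ, p.Prime → p ≤ x →
      (gc W S s < p ∧ p ≤ gc W S (s + w)) → ¬ Hit W S p v) (by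
      intro v hv
      by_contra hcon
      apply hv
      intro a b hab hbx hD
      by_contra h1
      apply hcon
      have hca : 0 ≤ clock W S a := by
        have := clock_mono W S hq 0 a (Nat.zero_le a)
        rwa [clock_zero] at this
      obtain ⟨s, hs⟩ : ∃ s : ℕ, s = ⌊clock W S a⌋₊ + 1 := ⟨_, rfl⟩
      have hs1 : clock W S a < s := by
        rw [hs]
        push_cast
        exact Nat.lt_floor_add_one _
      have hs2 : (s : ℝ) ≤ clock W S a + 1 := by
        rw [hs]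
        push_cast
        linarith [Nat.floor_le hca]
      have hswb : ((s + w : ℕ) : ℝ) ≤ clock W S b := by
        push_cast
        nlinarith
      have hswx : ((s + w : ℕ) : ℝ) ≤ clock W S x := hswb.trans (clock_mono W S hq b x hbx)
      have hsx : (s : ℝ) ≤ clock W S x := le_trans (by push_cast; linarith [Nat.cast_nonneg (α := ℝ) w]) hswx
      refine ⟨s, ?_, hswx, ?_⟩
      · rw [mem_range, hT]
        rw [hV] at hsx
        have := Nat.le_floor hsx
        omega
      · intro p hp _ hpw hhit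
        apply h1
        refine ⟨p, hp, ?_, hpw.2.trans (gc_le W S (s + w) b hswb), hhit⟩
        by_contra h2
        push Not at h2
        have h3 : gc W S s ≤ a := hpw.1.le.trans h2
        have h4 := clock_mono W S hq _ _ h3
        have h5 := gc_ge W S s x hsx
        linarith)
  refine hc.trans ((sum_le_sum fun s _ => hone s).trans ?_)
  rw [sum_const, card_range, nsmul_eq_mul]
  calc ((T + 1 : ℕ) : ℝ) * (4 * Real.exp (-((1 + δ / 2) * l)) * (box M N).card)
      ≤ (2 * Real.exp l) * (4 * Real.exp (-((1 + δ / 2) * l)) * (box M N).card) := by gcongr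
    _ = 8 * (Real.exp l * Real.exp (-((1 + δ / 2) * l))) * (box M N).card := by ring
    _ = 8 * Real.exp (-(δ / 2 * l)) * (box M N).card := by
        rw [← Real.exp_add]
        congr 3
        ring

end Pool.Agent.H46.LT
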