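import Pool.Agent.H46.LT.Gap2

/-!
# Gaps between the primes with given Frobenius traces: existence of long gaps
-/

set_option autoImplicit false

namespace Pool.Agent.H46.LT

open Finset Pool.Agent.K4H16.CG

variable {n r : ℕ}

open Classical in
/-- existence of long gaps -/
theorem gap_lower (n : ℕ) (δ : ℝ) (hδ : 0 < δ) (hδ1 : δ ≤ 1) : ∃ (A Λ : ℝ), 1 ≤ A ∧ 1 ≤ Λ ∧ ∀ (r : ℕ)
    (W : Fin r → WeierstrassCurve (MvPolynomial (Fin n) ℤ)) (S : ℕ → (Fin r → Option ℤ) → Prop), (∀ p, p.Prime → freq W S p ≤ 1 / 2) →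
    ∀ (x : ℕ) (l : ℝ) (M : Fin n → ℤ) (N : Fin n → ℕ), clock W S x = Real.exp l → Λ ≤ l → (∀ i, (x : ℝ) ^ (A * l) ≤ N i) →
      (((box M N).filter (fun v => ¬ ∃ a b : ℕ, a ≤ b ∧ b ≤ x ∧ (1 - δ) * l ≤ clock W S b - clock W S a ∧
        ∀ p : ℕ, p.Prime → a < p → p ≤ b → ¬ Hit W S p v)).card : ℝ) ≤
        (Real.exp (-(δ / 4 * l)) + 3 * Real.exp (-(2 * l))) * (box M N).card := by
  obtain ⟨B, H⟩ := gap_prob n
  refine ⟨8 * B + 1, 2048 / δ ^ 2, by linarith [Nat.cast_nonneg (α := ℝ) B], by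
    rw [le_div_iff₀ (by positivity)]
    nlinarith, ?_⟩
  intro r W S hq x l M N hV hl hN
  have hlδ2 : 2048 ≤ δ ^ 2 * l := by
    rw [div_le_iff₀ (by positivity)] at hl
    linarith
  have hlδ : 2048 ≤ δ * l := by
    have h0 : 0 ≤ l := by
      by_contra hcon
      push Not at hcon
      nlinarith [sq_nonneg δ]
    have : δ ^ 2 * l ≤ δ * l := by
      apply mul_le_mul_of_nonneg_right _ h0
      nlinarith
    linarith
  have hl16 : 2048 ≤ l := by
    have h0 : 0 ≤ l := by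
      by_contra hcon
      push Not at hcon
      nlinarith
    nlinarith
  have hl0 : 0 < l := by linarith
  have hBr : (0 : ℝ) ≤ B := Nat.cast_nonneg _
  have hx : 2 ≤ x := by
    by_contra hcon
    push Not at hcon
    rw [clock_small W S x hcon] at hV
    exact (Real.exp_pos l).ne hV
  have hx1 : (1 : ℝ) ≤ x := by exact_mod_cast (show 1 ≤ x by omega)
  have hbox0 : (0 : ℝ) ≤ (box M N).card := Nat.cast_nonneg _
  obtain ⟨w, hw⟩ : ∃ w : ℕ, w = ⌈(1 - δ / 2) * l⌉₊ := ⟨_, rfl⟩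
  have hwl0 : 0 ≤ (1 - δ / 2) * l := mul_nonneg (by linarith) hl0.le
  have hw1 : (1 - δ / 2) * l ≤ w := by rw [hw]; exact Nat.le_ceil _
  have hw2 : (w : ℝ) ≤ (1 - δ / 2) * l + 1 := by
    rw [hw]
    exact (Nat.ceil_lt_add_one hwl0).le
  have hw0r : (0 : ℝ) < w := by nlinarith
  have hw0 : 0 < w := by exact_mod_cast hw0r
  obtain ⟨T, hT⟩ : ∃ T : ℕ, T = ⌊Real.exp l⌋₊ := ⟨_, rfl⟩
  have hT1 : (T : ℝ) ≤ Real.exp l := by rw [hT]; exact Nat.floor_le (Real.exp_pos _).le
  have hT2 : Real.exp l < T + 1 := by rw [hT]; exact Nat.lt_floor_add_one _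
  obtain ⟨J, hJ⟩ : ∃ J : ℕ, J = T / w := ⟨_, rfl⟩
  have hJ1 : J * w ≤ T := by rw [hJ]; exact Nat.div_mul_le_self T w
  have hJ2 : T < w * (J + 1) := by rw [hJ]; exact Nat.lt_mul_div_succ T hw0
  have hJT : (J : ℝ) ≤ Real.exp l := by
    have h1 : J ≤ T := by rw [hJ]; exact Nat.div_le_self T w
    have h2 : (J : ℝ) ≤ T := by exact_mod_cast h1
    linarith
  have hexp16 : 4 * l ≤ Real.exp l := by
    have h1 : Real.exp l = Real.exp (l / 2) ^ 2 := by
      rw [← Real.exp_nat_mul]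
      congr 1
      push_cast
      ring
    have h2 := Real.add_one_le_exp (l / 2)
    rw [h1]
    nlinarith
  have hJR : Real.exp l / (4 * l) ≤ J := by
    have h2 : ((T + 1 : ℕ) : ℝ) ≤ ((w * (J + 1) : ℕ) : ℝ) := by exact_mod_cast hJ2
    push_cast at h2
    have h3 : (w : ℝ) ≤ 2 * l := by nlinarith
    have h4 : Real.exp l ≤ 2 * l * (J + 1) := by
      have h5 : (w : ℝ) * (J + 1) ≤ 2 * l * (J + 1) := mul_le_mul_of_nonneg_right h3 (by positivity)
      linarith
    rw [div_le_iff₀ (by positivity)]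
    linarith
  have hex : ∀ k ≤ J, ((k * w : ℕ) : ℝ) ≤ clock W S x := by
    intro k hk
    rw [hV]
    refine le_trans ?_ hT1
    exact_mod_cast (Nat.mul_le_mul_right w hk).trans hJ1
  -- the windows
  obtain ⟨y, hy⟩ : ∃ y : ℕ → ℕ, y = fun k => gc W S (k * w) := ⟨_, rfl⟩
  have hyx : ∀ k ≤ J, y k ≤ x := fun k hk => by rw [hy]; exact gc_le W S _ x (hex k hk)
  have hymono : ∀ j k : ℕ, j ≤ k → k ≤ J → y j ≤ y k := by
    intro j k hjk hk
    rw [hy]
    exact gc_mono W S _ _ x (Nat.mul_le_mul_right w hjk) (hex k hk)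
  obtain ⟨h, hh⟩ : ∃ h : ℕ → ℝ, h = fun k => clock W S (y (k + 1)) - clock W S (y k) := ⟨_, rfl⟩
  have hD : ∀ k, k < J → (w : ℝ) - 1 ≤ h k ∧ h k ≤ w + 1 := by
    intro k hk
    have h1 := gc_ge W S ((k + 1) * w) x (hex (k + 1) hk)
    have h2 := gc_lt W S hq ((k + 1) * w) x (hex (k + 1) hk)
    have h3 := gc_ge W S (k * w) x (hex k hk.le)
    have h4 := gc_lt W S hq (k * w) x (hex k hk.le)
    push_cast at h1 h2 h3 h4
    rw [hh, hy]
    constructor
    · show (w : ℝ) - 1 ≤ clock W S (gc W S ((k + 1) * w)) - clock W S (gc W S (k * w))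
      linarith
    · show clock W S (gc W S ((k + 1) * w)) - clock W S (gc W S (k * w)) ≤ w + 1
      linarith
  obtain ⟨D, hDd⟩ : ∃ D : ℕ → ℕ → Prop, D = fun k p => y k < p ∧ p ≤ y (k + 1) := ⟨_, rfl⟩
  have hhd : ∀ k, k < J → hd W S x (D k) = h k := by
    intro k hk
    rw [hDd, hh]
    exact hd_win W S (y k) (y (k + 1)) x (hymono k (k + 1) (Nat.le_succ k) hk) (hyx (k + 1) hk)
  have hdis : ∀ j k : ℕ, j < k → k < J → ∀ p, D j p → ¬ D k p := by
    intro j k hjk hk p h1 h2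
    rw [hDd] at h1 h2
    have h3 := hymono (j + 1) k hjk hk.le
    have h4 : p ≤ y (j + 1) := h1.2
    have h5 : y k < p := h2.1
    omega
  have hdis' : ∀ k < J, ∀ j < J, k ≠ j → ∀ p, D k p → ¬ D j p := by
    intro k hk j hj hkj p h1 h2
    rcases Nat.lt_or_gt_of_ne hkj with h3 | h3
    · exact hdis k j h3 hj p h1 h2
    · exact hdis j k h3 hk p h2 h1
  obtain ⟨X, hX⟩ : ∃ X : ℕ → (Fin n → ℤ) → Prop, X = fun k v => ∀ p : ℕ, p.Prime → p ≤ x → D k p → ¬ Hit W S p v := ⟨_, rfl⟩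
  obtain ⟨q, hqq⟩ : ∃ q : ℕ → ℝ, q = fun k => Real.exp (-h k) := ⟨_, rfl⟩
  have hw3 : (w : ℝ) + 1 ≤ l + 2 := by nlinarith
  have hsec := second (box M N) J X q (Real.exp (-(4 * l))) (Real.exp_pos _).le (by
      intro k hk
      rw [hqq]
      refine ⟨(Real.exp_pos _).le, Real.exp_le_one_iff.2 ?_⟩
      have := (hD k hk).1
      have : (1 : ℝ) ≤ w := by exact_mod_cast hw0
      linarith) (by
      intro k hk
      have h3 := H r W S hq (D k) x hx (4 * l) (by linarith) M N (by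
        intro i
        refine le_trans (Real.rpow_le_rpow_of_exponent_le hx1 ?_) (hN i)
        rw [hhd k hk]
        have h4 : h k + 4 * l ≤ 8 * l := by linarith [(hD k hk).2]
        have h5 : (B : ℝ) * (h k + 4 * l) ≤ B * (8 * l) := mul_le_mul_of_nonneg_left h4 hBr
        linarith)
      rw [hhd k hk] at h3
      rw [hX, hqq]
      exact h3) (by
      intro k hk j hj hkj
      have e1 : hd W S x (fun p => D k p ∨ D j p) = h k + h j := by
        rw [hd_or W S x (D k) (D j) (hdis' k hk j hj hkj), hhd k hk, hhd j hj]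
      have h3 := H r W S hq (fun p => D k p ∨ D j p) x hx (4 * l) (by linarith) M N (by
        intro i
        refine le_trans (Real.rpow_le_rpow_of_exponent_le hx1 ?_) (hN i)
        rw [e1]
        have h4 : h k + h j + 4 * l ≤ 8 * l := by linarith [(hD k hk).2, (hD j hj).2]
        have h5 : (B : ℝ) * (h k + h j + 4 * l) ≤ B * (8 * l) := mul_le_mul_of_nonneg_left h4 hBr
        linarith)
      rw [e1] at h3
      have e2 : (box M N).filter (fun v => ∀ p : ℕ, p.Prime → p ≤ x → (D k p ∨ D j p) → ¬ Hit W S p v) =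
          (box M N).filter (fun v => X k v ∧ X j v) := by
        apply filter_congr
        intro v _
        rw [hX]
        constructor
        · intro h4
          exact ⟨fun p hp hpx h5 => h4 p hp hpx (Or.inl h5), fun p hp hpx h5 => h4 p hp hpx (Or.inr h5)⟩
        · rintro ⟨h4, h5⟩ p hp hpx h6
          rcases h6 with h6 | h6
          · exact h4 p hp hpx h6
          · exact h5 p hp hpx h6
      have e3 : Real.exp (-(h k + h j)) = q k * q j := by
        rw [hqq, ← Real.exp_add]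
        congr 1
        ring
      rw [e2, e3] at h3
      exact h3) (∑ k ∈ range J, q k) rfl
  -- the mean
  obtain ⟨μ, hμ⟩ : ∃ μ : ℝ, μ = ∑ k ∈ range J, q k := ⟨_, rfl⟩
  have hμ1 : (J : ℝ) * Real.exp (-((1 - δ / 2) * l + 2)) ≤ μ := by
    rw [hμ]
    have h1 : ∀ k ∈ range J, Real.exp (-((1 - δ / 2) * l + 2)) ≤ q k := by
      intro k hk
      rw [hqq]
      apply Real.exp_le_exp.2
      have := (hD k (mem_range.1 hk)).2
      linarith
    refine le_trans (le_of_eq ?_) (sum_le_sum h1)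
    rw [sum_const, card_range, nsmul_eq_mul]
  have hμ2 : Real.exp (δ / 4 * l) ≤ μ := by
    refine le_trans ?_ hμ1
    have h1 : Real.exp l / (4 * l) * Real.exp (-((1 - δ / 2) * l + 2)) ≤ J * Real.exp (-((1 - δ / 2) * l + 2)) :=
      mul_le_mul_of_nonneg_right hJR (Real.exp_pos _).le
    refine le_trans ?_ h1
    have h2 : Real.exp l / (4 * l) * Real.exp (-((1 - δ / 2) * l + 2)) = Real.exp (δ / 2 * l - 2) / (4 * l) := by
      rw [div_mul_eq_mul_div, ← Real.exp_add]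
      congr 2
      ring
    rw [h2, le_div_iff₀ (by positivity)]
    have h3 : Real.exp (δ / 2 * l - 2) = Real.exp (δ / 4 * l) * (Real.exp (δ / 8 * l) * Real.exp (δ / 8 * l) * Real.exp (-2)) := by
      rw [← Real.exp_add, ← Real.exp_add, ← Real.exp_add]
      congr 1
      ring
    rw [h3]
    apply mul_le_mul_of_nonneg_left _ (Real.exp_pos _).le
    obtain ⟨E, hE⟩ : ∃ E : ℝ, E = Real.exp (δ / 8 * l) := ⟨_, rfl⟩
    rw [← hE]
    have h4 : δ / 8 * l + 1 ≤ E := by rw [hE]; exact Real.add_one_le_exp _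
    have hE0 : 0 < E := by rw [hE]; exact Real.exp_pos _
    have h5 : (1 : ℝ) / 8 ≤ Real.exp (-2) := by
      rw [Real.exp_neg, ← one_div]
      apply one_div_le_one_div_of_le (Real.exp_pos _)
      have e1 : Real.exp 2 = Real.exp 1 ^ 2 := by rw [← Real.exp_nat_mul]; norm_num
      rw [e1]
      have := Real.exp_one_lt_d9
      have h0 := (Real.exp_pos 1).le
      nlinarith
    have h6 : 4 * l * 8 ≤ E * E := by
      have h7 : l ≤ 8 / δ * E := by
        rw [div_mul_eq_mul_div, le_div_iff₀ hδ]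
        nlinarith
      have h8 : 256 / δ ≤ E := by
        rw [div_le_iff₀ hδ]
        have h9 : δ * (δ / 8 * l) ≤ δ * E := mul_le_mul_of_nonneg_left (by linarith) hδ.le
        nlinarith
      have h9 : 256 / δ * E ≤ E * E := mul_le_mul_of_nonneg_right h8 hE0.le
      have e : 256 / δ * E = 32 * (8 / δ * E) := by ring
      linarith
    have h7 : E * E * (1 / 8) ≤ E * E * Real.exp (-2) := mul_le_mul_of_nonneg_left h5 (by positivity)
    linarith
  have hμ1' : 1 ≤ μ := le_trans (Real.one_le_exp (by positivity)) hμ2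
  have hμ0 : 0 < μ := by linarith
  have hfin := hsec (by rw [← hμ]; exact hμ0)
  rw [← hμ] at hfin
  have hsub : ((box M N).filter (fun v => ¬ ∃ a b : ℕ, a ≤ b ∧ b ≤ x ∧ (1 - δ) * l ≤ clock W S b - clock W S a ∧
        ∀ p : ℕ, p.Prime → a < p → p ≤ b → ¬ Hit W S p v)) ⊆ (box M N).filter (fun v => ∀ k < J, ¬ X k v) := by
    intro v hv
    rw [mem_filter] at hv ⊢
    refine ⟨hv.1, fun k hk hXk => hv.2 ⟨y k, y (k + 1), hymono k (k + 1) (Nat.le_succ k) hk, hyx (k + 1) hk, ?_, ?_⟩⟩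
    · have h1 := (hD k hk).1
      rw [hh] at h1
      have h2 : (1 - δ) * l ≤ (w : ℝ) - 1 := by linarith
      exact h2.trans h1
    · intro p hp h1 h2
      rw [hX] at hXk
      refine hXk p hp (h2.trans (hyx (k + 1) hk)) ?_
      rw [hDd]
      exact ⟨h1, h2⟩
  have hsub' : (((box M N).filter (fun v => ¬ ∃ a b : ℕ, a ≤ b ∧ b ≤ x ∧ (1 - δ) * l ≤ clock W S b - clock W S a ∧
        ∀ p : ℕ, p.Prime → a < p → p ≤ b → ¬ Hit W S p v)).card : ℝ) ≤ (((box M N).filter (fun v => ∀ k < J, ¬ X k v)).card : ℝ) := by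
    exact_mod_cast card_le_card hsub
  refine hsub'.trans (hfin.trans ?_)
  apply mul_le_mul_of_nonneg_right _ hbox0
  apply add_le_add
  · rw [Real.exp_neg, ← one_div]
    exact one_div_le_one_div_of_le (Real.exp_pos _) hμ2
  · rw [div_le_iff₀ (by positivity)]
    have h1 : (J : ℝ) ^ 2 ≤ Real.exp l ^ 2 := pow_le_pow_left₀ (Nat.cast_nonneg _) hJT 2
    have h2 : Real.exp l ^ 2 * Real.exp (-(4 * l)) = Real.exp (-(2 * l)) := by
      rw [← Real.exp_nat_mul, ← Real.exp_add]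
      congr 1
      push_cast
      ring
    have h3 : (J : ℝ) ^ 2 * Real.exp (-(4 * l)) ≤ Real.exp (-(2 * l)) := by
      rw [← h2]
      exact mul_le_mul_of_nonneg_right h1 (Real.exp_pos _).le
    have h4 : 1 ≤ μ ^ 2 := one_le_pow₀ hμ1'
    have h5 : 3 * Real.exp (-(2 * l)) * 1 ≤ 3 * Real.exp (-(2 * l)) * μ ^ 2 := mul_le_mul_of_nonneg_left h4 (by positivity)
    linarith

end Pool.Agent.H46.LT
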